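import Pool.Agent.U907.GP.Crit

/-!
# The field of algebraic numbers
-/

set_option autoImplicit false
set_option linter.unusedSectionVars false

namespace Pool.Agent.U907.GP

open MvPolynomial Matrix Cardinal
open scoped Pointwise

noncomputable section

/-- the field of algebraic numbers -/
def QB : Subfield ℂ := (algebraicClosure ℚ ℂ).toSubfield

theorem mem_QB {a : ℂ} : a ∈ QB ↔ IsAlgebraic ℚ a := mem_algebraicClosure_iff

instance : IsAlgClosed QB := by
  have h : IsAlgClosed (algebraicClosure ℚ ℂ) :=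
    @IsAlgClosure.isAlgClosed ℚ (algebraicClosure ℚ ℂ) _ _ _ _ (algebraicClosure.isAlgClosure ℚ ℂ)
  exact h

instance : Countable QB := by
  have h : Countable (algebraicClosure ℚ ℂ) := by
    rw [← Cardinal.mk_le_aleph0_iff]
    have _ : @Algebra.IsAlgebraic ℚ (algebraicClosure ℚ ℂ) _ _ _ :=
      algebraicClosure.isAlgebraic ℚ ℂ
    have h1 := Algebra.IsAlgebraic.cardinalMk_le_max ℚ (algebraicClosure ℚ ℂ)
    refine h1.trans ?_
    simp
  exact h

theorem isAlgebraic_aut (σ : ℂ ≃+* ℂ) {a : ℂ} (h : IsAlgebraic ℚ a) : IsAlgebraic ℚ (σ a) := by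
  obtain ⟨p, hp, h0⟩ := h
  refine ⟨p, hp, ?_⟩
  have h1 : Polynomial.aeval (σ a) p = σ (Polynomial.aeval a p) := by
    rw [Polynomial.aeval_def, Polynomial.aeval_def]
    have h2 := Polynomial.hom_eval₂ p (algebraMap ℚ ℂ) (σ : ℂ →+* ℂ) a
    have h3 : ((σ : ℂ →+* ℂ).comp (algebraMap ℚ ℂ)) = algebraMap ℚ ℂ := Subsingleton.elim _ _
    rw [h3] at h2
    exact h2.symm
  rw [h1, h0, map_zero]

theorem mem_of_fixed_QB (k : Subfield ℂ) [Countable k] {a : ℂ}
    (h : ∀ σ : ℂ ≃+* ℂ, Fx k σ → σ a = a) : a ∈ k := by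
  have hk : ∀ x : ℚ, algebraMap ℚ ℂ x ∈ k := fun x => by
    rw [eq_ratCast]
    exact SubfieldClass.ratCast_mem k x
  let k' : IntermediateField ℚ ℂ := k.toIntermediateField hk
  have _ : Countable k' := inferInstanceAs (Countable k)
  exact Pool.Agent.N994.PG.mem_of_fixed k' (x := a) fun σ hσ => h σ hσ

theorem data_of_algebraic {k : Subfield ℂ} (hk : ∀ a ∈ k, IsAlgebraic ℚ a) : Data k QB where
  le := fun a ha => mem_QB.2 (hk a ha)
  st := fun σ _ a => by
    rw [mem_QB, mem_QB]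
    constructor
    · exact isAlgebraic_aut σ
    · intro h
      have h1 := isAlgebraic_aut σ.symm h
      rwa [σ.symm_apply_apply] at h1
  fix := fun a h => by
    have h1 : k ≤ QB := fun a ha => mem_QB.2 (hk a ha)
    have _ : Countable k := (Subfield.inclusion h1).injective.countable
    exact mem_of_fixed_QB k h

variable {ι : Type} [Fintype ι] [DecidableEq ι]

/-- the transcendence degree over the algebraic numbers of the field generated by the entries of a
matrix -/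
def trd (x : Matrix ι ι ℂ) : ℕ :=
  Cardinal.toNat (Algebra.trdeg QB
    (IntermediateField.adjoin QB (Set.range fun p : ι × ι => x p.1 p.2)))

theorem trd_eq (g : GL ι ℂ) : trd (g : Matrix ι ι ℂ) = tdg QB g := by
  have h1 : ∀ d, pt g d ∈ IntermediateField.adjoin QB
      (Set.range fun p : ι × ι => (g : Matrix ι ι ℂ) p.1 p.2) := by
    have h2 : ∀ i j, (g : Matrix ι ι ℂ) i j ∈ (IntermediateField.adjoin QB
        (Set.range fun p : ι × ι => (g : Matrix ι ι ℂ) p.1 p.2)).toSubfield := fun i j =>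
      IntermediateField.subset_adjoin _ _ ⟨(i, j), rfl⟩
    exact pt_mem_of_ent h2
  have h3 : Algebra.adjoin QB (Set.range (pt g)) ≤ (IntermediateField.adjoin QB
      (Set.range fun p : ι × ι => (g : Matrix ι ι ℂ) p.1 p.2)).toSubalgebra := by
    refine Algebra.adjoin_le ?_
    rintro _ ⟨d, rfl⟩
    exact h1 d
  have h4 : Algebra.adjoin QB (Set.range fun p : ι × ι => (g : Matrix ι ι ℂ) p.1 p.2) ≤
      Algebra.adjoin QB (Set.range (pt g)) := by
    refine Algebra.adjoin_mono ?_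
    rintro _ ⟨p, rfl⟩
    exact ⟨Sum.inl p, rfl⟩
  have h5 := trdeg_eq_of_isAlgebraic h3 (by
    intro b hb
    have hb' : b ∈ IntermediateField.adjoin QB
      (Set.range fun p : ι × ι => (g : Matrix ι ι ℂ) p.1 p.2) := hb
    rw [IntermediateField.mem_adjoin_iff_div] at hb'
    obtain ⟨p, hp, q, hq, rfl⟩ := hb'
    rw [div_eq_mul_inv]
    apply IsAlgebraic.mul
    · exact isAlgebraic_algebraMap (⟨p, h4 hp⟩ : Algebra.adjoin QB (Set.range (pt g)))
    · exact (isAlgebraic_algebraMap (⟨q, h4 hq⟩ : Algebra.adjoin QB (Set.range (pt g)))).inv)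
  rw [tdg, td, h5]
  rfl

/-! ### The base field `ℚ` -/

/-- the field of the rational numbers -/
def Q0 : Subfield ℂ := (algebraMap ℚ ℂ).fieldRange

theorem mem_Q0 {a : ℂ} : a ∈ Q0 ↔ ∃ q : ℚ, (q : ℂ) = a := Iff.rfl

theorem algebraic_Q0 : ∀ a ∈ Q0, IsAlgebraic ℚ a := by
  rintro _ ⟨q, rfl⟩
  exact isAlgebraic_algebraMap q

theorem fx_Q0 (σ : ℂ ≃+* ℂ) : Fx Q0 σ := by
  rintro _ ⟨q, rfl⟩
  exact map_ratCast σ q

/-- the inclusion -/
def r0 : ℚ →+* Q0 := (algebraMap ℚ ℂ).rangeRestrictField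

/-- polynomials over the rational numbers -/
theorem exists_rat (p : MvPolynomial (ι × ι) Q0) : ∃ p' : MvPolynomial (ι × ι) ℚ,
    ∀ x : ι × ι → ℂ, aeval x p' = aeval x p := by
  obtain ⟨p', hp'⟩ := map_surjective (σ := ι × ι) r0
    (fun a => by
      obtain ⟨a, q, hq⟩ := a
      exact ⟨q, Subtype.ext hq⟩) p
  refine ⟨p', fun x => ?_⟩
  rw [← hp', aeval_def, aeval_def, eval₂_map]
  rfl

theorem exists_rat' (p : MvPolynomial (ι × ι) ℚ) : ∃ p' : MvPolynomial (ι × ι) Q0,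
    ∀ x : ι × ι → ℂ, aeval x p' = aeval x p := by
  refine ⟨map r0 p, fun x => ?_⟩
  rw [aeval_def, aeval_def, eval₂_map]
  rfl

/-- algebraic groups over the rational numbers -/
theorem isAlg_Q0_iff (G : Subgroup (GL ι ℂ)) : IsAlg Q0 G ↔
    ∃ I : Set (MvPolynomial (ι × ι) ℚ), ∀ x : GL ι ℂ, x ∈ G ↔
      ∀ p ∈ I, aeval (fun b : ι × ι => (x : Matrix ι ι ℂ) b.1 b.2) p = 0 := by
  constructor
  · rintro ⟨I, hI⟩
    refine ⟨{p | ∃ q ∈ I, ∀ x : ι × ι → ℂ, aeval x p = aeval x q}, fun x => ?_⟩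
    rw [hI]
    constructor
    · rintro h p ⟨q, hq, hpq⟩
      rw [hpq]
      exact h q hq
    · intro h q hq
      obtain ⟨p, hp⟩ := exists_rat q
      have h1 := h p ⟨q, hq, hp⟩
      rw [hp] at h1
      exact h1
  · rintro ⟨I, hI⟩
    refine ⟨{p | ∃ q ∈ I, ∀ x : ι × ι → ℂ, aeval x p = aeval x q}, fun x => ?_⟩
    rw [hI]
    constructor
    · rintro h p ⟨q, hq, hpq⟩
      rw [hpq]
      exact h q hq
    · intro h q hq
      obtain ⟨p, hp⟩ := exists_rat' q
      have h1 := h p ⟨q, hq, hp⟩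
      rw [hp] at h1
      exact h1

end

end Pool.Agent.U907.GP
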