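import Pool.Agent.U907.GP.Period

/-!
# Criteria for the period conjecture
-/

set_option autoImplicit false
set_option linter.unusedSectionVars false

namespace Pool.Agent.U907.GP

open MvPolynomial Matrix
open scoped Pointwise

noncomputable section

variable {ι : Type} [Fintype ι] [DecidableEq ι] {k K : Subfield ℂ} [IsAlgClosed K] [Countable K]

theorem exists_left {δ : GL ι ℂ} (hδ : ∀ d, pt δ d ∈ K) (f : MvPolynomial (D ι) K) :
    ∃ f' : MvPolynomial (D ι) K, ∀ x : GL ι ℂ, aeval (pt x) f' = aeval (pt (δ * x)) f := by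
  obtain ⟨G, hG⟩ := exists_evL (K := K) le_rfl hδ (bind₁ (mulP K) f)
  exact ⟨G, fun x => by rw [hG, aeval_mulP]⟩

/-- the relations of `P` hold on the torsor -/
theorem relations_of_tdg (hd : Data k K) {P : GL ι ℂ} (h : tdg K P = dimG K (GG k K P))
    {p : MvPolynomial (ι × ι) K} (hp : aeval (ent P) p = 0) {x : GL ι ℂ} (hx : x ∈ GG k K P) :
    aeval (ent (x * P)) p = 0 := by
  obtain ⟨z, hz⟩ := (genG_Z (K := K) P).nonempty
  have h1 := mul_inv_mem_GG (k := k) hz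
  have h2 := gen_of_tdg hd.le hd.st h1 (by rw [tdg_mul_right (pt_inv_mem (kP_Z P z hz)), h])
  obtain ⟨f, hf⟩ := exists_lift (le_refl K) p
  obtain ⟨f', hf'⟩ := exists_right (kP_Z P z hz) f
  have h3 : aeval (pt (P * z⁻¹)) f' = 0 := by
    rw [hf', hf, inv_mul_cancel_right]
    exact hp
  have h4 := (h2 f').1 h3
  have h5 : x * (P * z⁻¹) ∈ GG k K P := (GG k K P).mul_mem hx h1
  have h6 := h5 f' h4
  rw [hf', hf, mul_assoc, inv_mul_cancel_right] at h6
  exact h6

theorem tdg_of_relations (hd : Data k K) {P : GL ι ℂ}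
    (h : ∀ p : MvPolynomial (ι × ι) K, aeval (ent P) p = 0 → ∀ x ∈ GG k K P,
      aeval (ent (x * P)) p = 0) : tdg K P = dimG K (GG k K P) := by
  have h0 : tdg K P ≤ dimG K (GG k K P) :=
    (tdg_le_gr_one hd.le hd.st).trans (gr_le_dimG hd.st 1)
  refine le_antisymm h0 ?_
  obtain ⟨z, hz⟩ := (genG_Z (K := K) P).nonempty
  have h1 := mul_inv_mem_GG (k := k) hz
  obtain ⟨m, hm⟩ := exists_gr_eq (P := P) hd.le hd.st
  obtain ⟨g, hg, h2⟩ := exists_gr (k := k) (K := K) (P := P) m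
  have h3 : g ∈ GG k K P := pow_le_GG hd.st hg
  rw [← hm, ← h2, ← tdg_mul_right (g := g) (kP_Z P z hz)]
  refine td_le fun f hf => ?_
  obtain ⟨N, p, hp⟩ := exists_clear (k := K) f
  have h4 := h p (by rw [hp, hf, mul_zero]) (g * (P * z⁻¹)⁻¹)
    ((GG k K P).mul_mem h3 ((GG k K P).inv_mem h1))
  have h5 : g * (P * z⁻¹)⁻¹ * P = g * z := by group
  rw [h5, hp] at h4
  exact (mul_eq_zero.1 h4).resolve_left
    (pow_ne_zero _ (Matrix.GeneralLinearGroup.det (g * z)).ne_zero)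

/-- a product with maximal transcendence degree is a generic point of the period group -/
theorem relations_of_max (hd : Data k K) {P g : GL ι ℂ} (hg : g ∈ GG k K P)
    (h : tdg K g = dimG K (GG k K P)) {p : MvPolynomial (ι × ι) K} (hp : aeval (ent g) p = 0)
    {x : GL ι ℂ} (hx : x ∈ GG k K P) : aeval (ent x) p = 0 := by
  have h2 := gen_of_tdg hd.le hd.st hg h.ge
  obtain ⟨f, hf⟩ := exists_lift (le_refl K) p
  rw [← hf] at hp ⊢
  exact hx f ((h2 f).1 hp)

/-! ### The base field `K` -/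

theorem Z_cj_fix {P : GL ι ℂ} {τ : ℂ ≃+* ℂ} (hτ : Fx K τ) : Z K (cj τ P) = Z K P := by
  have key : ∀ f : MvPolynomial (D ι) K, aeval (pt (cj τ P)) f = 0 ↔ aeval (pt P) f = 0 := by
    intro f
    rw [aeval_pt_cj hτ, map_eq_zero_iff τ τ.injective]
  unfold Z
  simp only [key]

theorem Y_fix {P : GL ι ℂ} {τ : ℂ ≃+* ℂ} (hτ : Fx K τ) :
    Y K P τ = Z K P * (Z K P)⁻¹ := by
  rw [Y, Z_cj_fix hτ]

/-- over `K` one product decides -/
theorem tdg_eq_iff_one (hd : Data K K) {P : GL ι ℂ} :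
    tdg K P = dimG K (GG K K P) ↔ gr K K P 1 ≤ tdg K P := by
  constructor
  · intro h
    rw [h]
    exact gr_le_dimG hd.st 1
  intro h
  rw [tdg_eq_iff hd.le hd.st]
  refine le_trans ?_ h
  obtain ⟨V, hV⟩ : ∃ V, V = Z K P := ⟨_, rfl⟩
  have hW1 : IsW K K P 1 (1 * Y K P (RingEquiv.refl ℂ)) := IsW.zero.succ fun _ _ => rfl
  have hW1' : (1 * Y K P (RingEquiv.refl ℂ) : Set (GL ι ℂ)) = V * V⁻¹ := by
    rw [one_mul, Y, cj_refl, hV]
  rw [hW1'] at hW1
  obtain ⟨g, hg, h1⟩ := hW1.exists_gen hd.le hd.st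
  have hgP : tdg K g ≤ tdg K P := (tdg_le_gr hg).trans h
  have hgenP : GenG K P V := by rw [hV]; exact genG_Z P
  have hKV : KP K V := by rw [hV]; exact kP_Z P
  -- relations on `V z⁻¹`
  have h2 : ∀ z ∈ V, ∀ f : MvPolynomial (D ι) K, (∀ v ∈ V, aeval (pt (v * z⁻¹)) f = 0) →
      ∀ w ∈ V * V⁻¹, aeval (pt w) f = 0 := by
    intro z hz f hf
    have h3 : InG K (P * z⁻¹) (V * V⁻¹) :=
      hgenP.toInG.mul (InG.of_mem (Set.inv_mem_inv.2 hz)) hKV.inv
    have h4 := h3.gen h1 (by rw [tdg_mul_right (pt_inv_mem (hKV z hz))]; exact hgP)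
    refine (h4 f).1 ?_
    obtain ⟨f', hf'⟩ := exists_right (pt_inv_mem (hKV z hz)) f
    rw [← hf']
    exact (hgenP f').2 fun v hv => by rw [hf']; exact hf v hv
  -- relations on `V`
  have h3 : ∀ f : MvPolynomial (D ι) K, (∀ v ∈ V, aeval (pt v) f = 0) →
      ∀ w ∈ V * V⁻¹, ∀ z ∈ V, aeval (pt (w * z)) f = 0 := by
    intro f hf w hw z hz
    obtain ⟨f', hf'⟩ := exists_right (hKV z hz) f
    rw [← hf']
    exact h2 z hz f' (fun v hv => by rw [hf', inv_mul_cancel_right]; exact hf v hv) w hw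
  have h4 : ∀ f : MvPolynomial (D ι) K, (∀ w ∈ V * V⁻¹, aeval (pt w) f = 0) →
      ∀ w ∈ V * V⁻¹, ∀ u ∈ V * V⁻¹, aeval (pt (w * u)) f = 0 := by
    rintro f hf w hw _ ⟨v, hv, z, hz, rfl⟩
    obtain ⟨f', hf'⟩ := exists_right (hKV.inv z hz) f
    have h5 := h3 f' (fun y hy => by
      rw [hf']
      exact hf _ ⟨y, hy, z, hz, rfl⟩) w hw v hv
    rw [hf', mul_assoc] at h5
    exact h5
  obtain ⟨g₂, hg₂, h5⟩ := exists_gr (k := K) (K := K) (P := P) 2
  rw [← h5]
  obtain ⟨W, hW, h6⟩ := exists_IsW hd.st hg₂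
  have hW2 : W = V * V⁻¹ * (V * V⁻¹) := by
    cases hW with
    | succ hW' hτ =>
      cases hW' with
      | succ hW'' hτ' =>
        cases hW'' with
        | zero => rw [Y_fix hτ, Y_fix hτ', one_mul, hV]
  have h7 : InG K g₂ (V * V⁻¹) := by
    refine h6.trans fun u hu => ?_
    rw [hW2] at hu
    obtain ⟨a, ha, b, hb, rfl⟩ := hu
    exact fun f hf => h4 f hf a ha b hb
  exact (h7.tdg_le h1).trans (tdg_le_gr hg)

/-- conjugation over `K` preserves the transcendence degree -/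
theorem tdg_cj {τ : ℂ ≃+* ℂ} (hτ : Fx K τ) (g : GL ι ℂ) : tdg K (cj τ g) = tdg K g := by
  have key : ∀ f : MvPolynomial (D ι) K, aeval (pt (cj τ g)) f = 0 ↔ aeval (pt g) f = 0 := by
    intro f
    rw [aeval_pt_cj hτ, map_eq_zero_iff τ τ.injective]
  exact le_antisymm (td_le fun f hf => (key f).2 hf) (td_le fun f hf => (key f).1 hf)

/-- the group is contained in every algebraic group over `k` which contains the quotients -/
theorem GG_le_of_Q (hd : Data k K) {P : GL ι ℂ} {G : Subgroup (GL ι ℂ)} (hG : IsAlg k G)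
    (hQ : Q k K P ⊆ G) : GG k K P ≤ G := by
  obtain ⟨m, hm⟩ := exists_gr_eq (P := P) hd.le hd.st
  obtain ⟨g, hg, -, h2⟩ := exists_gen_Gam hd.le hd.st (m := m)
    (by rw [hm]; exact gr_le_dimG hd.st _)
  have hgG : g ∈ G := by
    have h3 : ∀ j, Q k K P ^ j ⊆ (G : Set (GL ι ℂ)) := by
      intro j
      induction j with
      | zero =>
        rw [pow_zero]
        intro x hx
        rw [Set.mem_one.1 hx]
        exact G.one_mem
      | succ j ih =>
        rw [pow_succ]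
        rintro _ ⟨a, ha, b, hb, rfl⟩
        exact G.mul_mem (ih ha) (hQ hb)
    exact h3 m hg
  obtain ⟨I, hI⟩ := hG
  intro x hx
  rw [hI]
  intro p hp
  obtain ⟨f, hf⟩ := exists_lift hd.le p
  rw [← hf]
  refine hx f ((h2 f).1 ?_)
  rw [hf]
  exact (hI g).1 hgG p hp

end

end Pool.Agent.U907.GP
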