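import Pool.Agent.U907.GP.Growth

/-!
# Fields of definition
-/

set_option autoImplicit false
set_option linter.unusedSectionVars false

namespace Pool.Agent.U907.GP

open MvPolynomial Matrix
open scoped Pointwise

noncomputable section

section descent

variable {κ : Type} {k : Subfield ℂ} {V : Set (κ → ℂ)}

theorem eval_map_aut (σ : ℂ ≃+* ℂ) (x : κ → ℂ) (F : MvPolynomial κ ℂ) :
    eval (fun i => σ (x i)) (map (σ : ℂ →+* ℂ) F) = σ (eval x F) := by
  rw [eval_map]
  exact (eval₂_comp_left (σ : ℂ →+* ℂ) (RingHom.id ℂ) x F).symm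

/-- **Galois descent** for the automorphisms of the complex numbers over `k` -/
theorem descent (hfix : ∀ a : ℂ, (∀ σ : ℂ ≃+* ℂ, Fx k σ → σ a = a) → a ∈ k)
    (hV : ∀ σ : ℂ ≃+* ℂ, Fx k σ → ∀ v ∈ V, (fun i => σ (v i)) ∈ V)
    (F : MvPolynomial κ ℂ) (hF : ∀ v ∈ V, eval v F = 0) :
    F ∈ Submodule.span ℂ {G : MvPolynomial κ ℂ | ∃ p : MvPolynomial κ k,
      (∀ v ∈ V, aeval v p = 0) ∧ G = map k.subtype p} := by
  classical
  have hVs : ∀ σ : ℂ ≃+* ℂ, Fx k σ → ∀ G : MvPolynomial κ ℂ, (∀ v ∈ V, eval v G = 0) →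
      ∀ v ∈ V, eval v (map (σ : ℂ →+* ℂ) G) = 0 := by
    intro σ hσ G hG v hv
    have h1 : Fx k σ.symm := fun a ha => by
      rw [RingEquiv.symm_apply_eq]
      exact (hσ a ha).symm
    have h2 := hV _ h1 v hv
    have h3 : v = fun i => σ ((fun i => σ.symm (v i)) i) := by
      funext i
      simp
    rw [h3, eval_map_aut, hG _ h2, map_zero]
  -- the difference `σ F - F` has smaller support if the coefficient at `m` is one
  have hsm : ∀ σ : ℂ ≃+* ℂ, ∀ G : MvPolynomial κ ℂ, ∀ m ∈ G.support, coeff m G = 1 →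
      (map (σ : ℂ →+* ℂ) G - G).support.card < G.support.card := by
    intro σ G m hm h1
    apply Finset.card_lt_card
    rw [Finset.ssubset_iff_of_subset]
    · refine ⟨m, hm, ?_⟩
      rw [notMem_support_iff, coeff_sub, coeff_map, h1, map_one, sub_self]
    · intro a ha
      by_contra hcon
      rw [notMem_support_iff] at hcon
      rw [mem_support_iff, coeff_sub, coeff_map, hcon, map_zero, sub_self] at ha
      exact ha rfl
  induction hn : F.support.card using Nat.strong_induction_on generalizing F with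
  | _ n ih =>
    subst hn
    by_cases hF0 : F = 0
    · rw [hF0]
      exact Submodule.zero_mem _
    obtain ⟨m₀, hm₀⟩ : ∃ m, m ∈ F.support := by
      by_contra hcon
      push Not at hcon
      exact hF0 (support_eq_empty.1 (Finset.eq_empty_of_forall_notMem hcon))
    -- scaling does not change the support
    have hsupp : ∀ c : ℂ, c ≠ 0 → ∀ G : MvPolynomial κ ℂ, (c • G).support = G.support := by
      intro c hc G
      ext a
      rw [mem_support_iff, mem_support_iff, coeff_smul, smul_eq_mul, mul_ne_zero_iff]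
      exact and_iff_right hc
    have hc0 : coeff m₀ F ≠ 0 := mem_support_iff.1 hm₀
    obtain ⟨F₁, hF₁⟩ : ∃ F₁, F₁ = (coeff m₀ F)⁻¹ • F := ⟨_, rfl⟩
    have hs₁ : F₁.support = F.support := by rw [hF₁]; exact hsupp _ (inv_ne_zero hc0) F
    have h₁ : ∀ v ∈ V, eval v F₁ = 0 := fun v hv => by
      rw [hF₁, smul_eval, hF v hv, mul_zero]
    have hone₁ : coeff m₀ F₁ = 1 := by
      rw [hF₁, coeff_smul, smul_eq_mul, inv_mul_cancel₀ hc0]
    suffices hF₁mem : F₁ ∈ Submodule.span ℂ {G : MvPolynomial κ ℂ | ∃ p : MvPolynomial κ k,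
        (∀ v ∈ V, aeval v p = 0) ∧ G = map k.subtype p} by
      have h2 : F = coeff m₀ F • F₁ := by
        rw [hF₁, smul_smul, mul_inv_cancel₀ hc0, one_smul]
      rw [h2]
      exact Submodule.smul_mem _ _ hF₁mem
    by_cases hk : ∀ m, coeff m F₁ ∈ k
    · have h2 : F₁ ∈ Set.range (map (σ := κ) k.subtype) := by
        rw [mem_range_map_iff_coeffs_subset]
        rintro a ha
        obtain ⟨m, -, rfl⟩ := mem_coeffs_iff.1 ha
        exact ⟨⟨_, hk m⟩, rfl⟩
      obtain ⟨p, hp⟩ := h2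
      refine Submodule.subset_span ⟨p, fun v hv => ?_, hp.symm⟩
      rw [← aeval_coe, hp]
      exact h₁ v hv
    · push Not at hk
      obtain ⟨m₁, hm₁⟩ := hk
      obtain ⟨σ, hσ, hne⟩ : ∃ σ : ℂ ≃+* ℂ, Fx k σ ∧ σ (coeff m₁ F₁) ≠ coeff m₁ F₁ := by
        by_contra hcon
        push Not at hcon
        exact hm₁ (hfix _ hcon)
      obtain ⟨b, hb⟩ : ∃ b, b = coeff m₁ F₁ := ⟨_, rfl⟩
      rw [← hb] at hne hm₁
      have hb0 : b ≠ 0 := fun h0 => hm₁ (by rw [h0]; exact k.zero_mem)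
      have hσb : σ b ≠ 0 := (map_ne_zero_iff σ σ.injective).2 hb0
      have hG := ih _ (by
        rw [← hs₁]
        exact hsm σ F₁ m₀ (by rw [hs₁]; exact hm₀) hone₁) (map (σ : ℂ →+* ℂ) F₁ - F₁)
        (fun v hv => by rw [map_sub, hVs σ hσ F₁ h₁ v hv, h₁ v hv, sub_self]) rfl
      have hs₂ : (b⁻¹ • F₁).support = F.support := by
        rw [hsupp _ (inv_ne_zero hb0), hs₁]
      have h₂ : ∀ v ∈ V, eval v (b⁻¹ • F₁) = 0 := fun v hv => by
        rw [smul_eval, h₁ v hv, mul_zero]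
      have hH := ih _ (by
        rw [← hs₂]
        refine hsm σ (b⁻¹ • F₁) m₁ ?_ ?_
        · rw [hs₂, ← hs₁, mem_support_iff, ← hb]
          exact hb0
        · rw [coeff_smul, smul_eq_mul, ← hb, inv_mul_cancel₀ hb0])
        (map (σ : ℂ →+* ℂ) (b⁻¹ • F₁) - b⁻¹ • F₁)
        (fun v hv => by rw [map_sub, hVs σ hσ _ h₂ v hv, h₂ v hv, sub_self]) rfl
      have hms : map (σ : ℂ →+* ℂ) (b⁻¹ • F₁) = (σ b)⁻¹ • map (σ : ℂ →+* ℂ) F₁ := by
        rw [smul_eq_C_mul, map_mul, map_C, smul_eq_C_mul]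
        congr 2
        exact map_inv₀ σ b
      have hcomb : ((σ b)⁻¹ - b⁻¹) • F₁ =
          (map (σ : ℂ →+* ℂ) (b⁻¹ • F₁) - b⁻¹ • F₁) -
            (σ b)⁻¹ • (map (σ : ℂ →+* ℂ) F₁ - F₁) := by
        rw [hms, sub_smul, smul_sub]
        abel
      have hd : (σ b)⁻¹ - b⁻¹ ≠ 0 := by
        rw [sub_ne_zero]
        exact fun h0 => hne (inv_injective h0)
      have h3 := Submodule.smul_mem _ ((σ b)⁻¹ - b⁻¹)⁻¹
        (Submodule.sub_mem _ hH (Submodule.smul_mem _ ((σ b)⁻¹) hG))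
      rw [← hcomb, smul_smul, inv_mul_cancel₀ hd, one_smul] at h3
      exact h3

end descent

end

end Pool.Agent.U907.GP
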