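import Mathlib
import Pool.Agent.N994.PG.Emb

/-!
# Embeddings of countable fields into the complex numbers and extension of automorphisms
-/

set_option autoImplicit false

namespace Pool.Agent.U907.GP

open MvPolynomial Cardinal

noncomputable section

/-- A countable extension of a countable subfield of the complex numbers embeds into the complex
numbers over the subfield. -/
theorem exists_emb (L E : Type) [Field L] [Countable L] [Field E] [Countable E] [Algebra L E]
    [Algebra L ℂ] : Nonempty (E →ₐ[L] ℂ) := by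
  obtain ⟨s, hs⟩ := exists_isTranscendenceBasis L E
  obtain ⟨t, ht⟩ := exists_isTranscendenceBasis L ℂ
  have h1 : #ℂ = #t := by
    have h := IsAlgClosed.cardinal_eq_cardinal_transcendence_basis_of_aleph0_lt _ ht
      (Cardinal.mk_le_aleph0) (by rw [Cardinal.mk_complex]; exact aleph0_lt_continuum)
    rwa [lift_id, lift_id] at h
  have hst : Nonempty (s ↪ t) := by
    rw [← Cardinal.le_def, ← h1, Cardinal.mk_complex]
    exact (Cardinal.mk_le_aleph0).trans aleph0_lt_continuum.le
  obtain ⟨j⟩ := hst
  have hy : AlgebraicIndependent L (fun a : s => ((j a : t) : ℂ)) := ht.1.comp j j.injective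
  let f : Algebra.adjoin L (Set.range ((↑) : s → E)) →ₐ[L] ℂ :=
    (MvPolynomial.aeval (fun a : s => ((j a : t) : ℂ))).comp
      (hs.1.aevalEquiv.symm : Algebra.adjoin L (Set.range ((↑) : s → E)) →ₐ[L] _)
  have hf : Function.Injective f := by
    have : Function.Injective (MvPolynomial.aeval (R := L) (fun a : s => ((j a : t) : ℂ))) := hy
    exact this.comp (hs.1.aevalEquiv.symm.injective)
  let _ := f.toRingHom.toAlgebra
  have h2 : Algebra.IsAlgebraic (Algebra.adjoin L (Set.range ((↑) : s → E))) E := hs.isAlgebraic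
  have h3 : FaithfulSMul (Algebra.adjoin L (Set.range ((↑) : s → E))) ℂ :=
    (faithfulSMul_iff_algebraMap_injective _ _).2 hf
  have h4 : IsScalarTower L (Algebra.adjoin L (Set.range ((↑) : s → E))) ℂ :=
    IsScalarTower.of_algebraMap_eq fun x => (f.commutes x).symm
  let g : E →ₐ[Algebra.adjoin L (Set.range ((↑) : s → E))] ℂ := IsAlgClosed.lift
  exact ⟨g.restrictScalars L⟩

theorem countable_fractionRing (A : Type) [CommRing A] [IsDomain A] [Countable A] :
    Countable (FractionRing A) := by
  have : Function.Surjective (fun z : A × nonZeroDivisors A =>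
      IsLocalization.mk' (FractionRing A) z.1 z.2) := fun z => by
    obtain ⟨a, b, hab⟩ := IsLocalization.exists_mk'_eq (nonZeroDivisors A) z
    exact ⟨(a, b), hab⟩
  exact this.countable

theorem countable_mvPolynomial (κ R : Type) [Countable κ] [CommRing R] [Countable R] :
    Countable (MvPolynomial κ R) := by
  rw [← Cardinal.mk_le_aleph0_iff]
  refine MvPolynomial.cardinalMk_le_max.trans (max_le (max_le ?_ ?_) le_rfl)
  · exact Cardinal.mk_le_aleph0
  · exact Cardinal.mk_le_aleph0

/-- Two embeddings of a countable domain are conjugate. -/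
theorem exists_conj_hom {A : Type} [CommRing A] [IsDomain A] [Countable A] {p q : A →+* ℂ}
    (hp : Function.Injective p) (hq : Function.Injective q) :
    ∃ σ : ℂ ≃+* ℂ, ∀ a, σ (p a) = q a := by
  have hcF : Countable (FractionRing A) := countable_fractionRing A
  let p' : FractionRing A →+* ℂ := IsFractionRing.lift hp
  let q' : FractionRing A →+* ℂ := IsFractionRing.lift hq
  obtain ⟨σ, hσ⟩ := Pool.Agent.N994.PG.exists_aut_emb' p' q'
  refine ⟨σ, fun a => ?_⟩
  have h2 := congrArg (fun f : FractionRing A →+* ℂ => f (algebraMap A _ a)) hσ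
  have h3 : p' (algebraMap A _ a) = p a := IsFractionRing.lift_algebraMap hp a
  have h4 : q' (algebraMap A _ a) = q a := IsFractionRing.lift_algebraMap hq a
  change σ (p' (algebraMap A _ a)) = q' (algebraMap A _ a) at h2
  rw [h3, h4] at h2
  exact h2

theorem exists_conj_of_ker {R : Type} [CommRing R] [Countable R] {f g : R →+* ℂ}
    (h : ∀ a, f a = 0 ↔ g a = 0) : ∃ σ : ℂ ≃+* ℂ, ∀ a, σ (f a) = g a := by
  have hI : (RingHom.ker f).IsPrime := RingHom.ker_isPrime f
  have hdom : IsDomain (R ⧸ RingHom.ker f) := Ideal.Quotient.isDomain _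
  have hcA : Countable (R ⧸ RingHom.ker f) := Ideal.Quotient.mk_surjective.countable
  let p : R ⧸ RingHom.ker f →+* ℂ := Ideal.Quotient.lift (RingHom.ker f) f fun a ha => ha
  let q : R ⧸ RingHom.ker f →+* ℂ := Ideal.Quotient.lift (RingHom.ker f) g fun a ha => (h a).1 ha
  have hp : Function.Injective p := by
    rw [injective_iff_map_eq_zero]
    intro a ha
    obtain ⟨b, rfl⟩ := Ideal.Quotient.mk_surjective a
    exact Ideal.Quotient.eq_zero_iff_mem.2 ha
  have hq : Function.Injective q := by
    rw [injective_iff_map_eq_zero]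
    intro a ha
    obtain ⟨b, rfl⟩ := Ideal.Quotient.mk_surjective a
    exact Ideal.Quotient.eq_zero_iff_mem.2 ((h b).2 ha)
  obtain ⟨σ, h1⟩ := exists_conj_hom hp hq
  exact ⟨σ, fun a => h1 (Ideal.Quotient.mk _ a)⟩

/-- Two families of complex numbers with the same relations over a countable subfield are
conjugate. -/
theorem exists_conj {κ : Type} [Countable κ] (K : Subfield ℂ) [Countable K] {x y : κ → ℂ}
    (h : ∀ f : MvPolynomial κ K, aeval x f = 0 ↔ aeval y f = 0) :
    ∃ σ : ℂ ≃+* ℂ, (∀ a ∈ K, σ a = a) ∧ ∀ i, σ (x i) = y i := by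
  have hc : Countable (MvPolynomial κ K) := countable_mvPolynomial κ K
  obtain ⟨σ, h1⟩ := exists_conj_of_ker (f := ((aeval x : MvPolynomial κ K →ₐ[K] ℂ) :
    MvPolynomial κ K →+* ℂ)) (g := ((aeval y : MvPolynomial κ K →ₐ[K] ℂ) :
    MvPolynomial κ K →+* ℂ)) h
  refine ⟨σ, fun a ha => ?_, fun i => ?_⟩
  · have h2 : σ (aeval x (C (⟨a, ha⟩ : K))) = aeval y (C (⟨a, ha⟩ : K)) := h1 _
    rw [algHom_C, algHom_C] at h2
    exact h2
  · have h2 : σ (aeval x (X i : MvPolynomial κ K)) = aeval y (X i : MvPolynomial κ K) := h1 _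
    rwa [aeval_X, aeval_X] at h2

end

end Pool.Agent.U907.GP
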