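import Pool.Agent.U907.GP.Ext

/-!
# Generic points over countable fields

`Gen K x V`: the relations over `K` of the point `x` are the polynomials which vanish on the set `V` of
points. For a set of points with coordinates in `K` with a generic point over `K` there are generic points
over all countable extensions `L`, and they are conjugate over `K`.
-/

set_option autoImplicit false

namespace Pool.Agent.U907.GP

open MvPolynomial

noncomputable section

variable {κ κ' : Type} (K : Subfield ℂ)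

/-- coefficientwise application of a `K`-linear functional -/
def cw (l : ℂ →ₗ[K] K) (F : MvPolynomial κ ℂ) : MvPolynomial κ K :=
  ∑ m ∈ F.support, monomial m (l (coeff m F))

theorem aeval_cw (l : ℂ →ₗ[K] K) (F : MvPolynomial κ ℂ) (z : κ → ℂ) :
    aeval z (cw K l F) = ∑ m ∈ F.support, (l (coeff m F) : ℂ) * ∏ i ∈ m.support, z i ^ m i := by
  rw [cw, map_sum]
  refine Finset.sum_congr rfl fun m _ => ?_
  rw [aeval_monomial]
  rfl

variable {K}

theorem aeval_cw_point {v : κ → ℂ} (hv : ∀ i, v i ∈ K) (l : ℂ →ₗ[K] K) (F : MvPolynomial κ ℂ) :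
    aeval v (cw K l F) = (l (eval v F) : ℂ) := by
  rw [aeval_cw, eval_eq, map_sum, AddSubmonoidClass.coe_finsetSum]
  refine Finset.sum_congr rfl fun m _ => ?_
  have hw : ∏ i ∈ m.support, v i ^ m i ∈ K := K.prod_mem fun i _ => K.pow_mem (hv i) _
  have h1 : coeff m F * ∏ i ∈ m.support, v i ^ m i =
      (⟨∏ i ∈ m.support, v i ^ m i, hw⟩ : K) • coeff m F := by
    change _ = (∏ i ∈ m.support, v i ^ m i) * coeff m F
    ring
  rw [h1, map_smul, smul_eq_mul, mul_comm]
  rfl

theorem eval_eq_zero_of_cw {z : κ → ℂ} {F : MvPolynomial κ ℂ}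
    (h : ∀ l : ℂ →ₗ[K] K, aeval z (cw K l F) = 0) : eval z F = 0 := by
  classical
  let b := Module.Basis.ofVectorSpace K ℂ
  let S := F.support.biUnion fun m => (b.repr (coeff m F)).support
  have h1 : ∀ m ∈ F.support, coeff m F = ∑ j ∈ S, ((b.coord j (coeff m F) : K) : ℂ) * b j := by
    intro m hm
    have h2 := b.linearCombination_repr (coeff m F)
    rw [Finsupp.linearCombination_apply, Finsupp.sum] at h2
    nth_rewrite 1 [← h2]
    have h3 : (b.repr (coeff m F)).support ⊆ S := fun j hj =>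
      Finset.mem_biUnion.2 ⟨m, hm, hj⟩
    rw [← Finset.sum_subset h3]
    · rfl
    · intro j _ hj
      have : b.coord j (coeff m F) = 0 := by
        rw [Module.Basis.coord_apply]
        exact Finsupp.notMem_support_iff.1 hj
      rw [this, ZeroMemClass.coe_zero, zero_mul]
  rw [eval_eq]
  have h4 : ∑ m ∈ F.support, coeff m F * ∏ i ∈ m.support, z i ^ m i =
      ∑ j ∈ S, b j * aeval z (cw K (b.coord j) F) := by
    simp only [aeval_cw, Finset.mul_sum]
    rw [Finset.sum_comm]
    refine Finset.sum_congr rfl fun m hm => ?_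
    nth_rewrite 1 [h1 m hm]
    rw [Finset.sum_mul]
    refine Finset.sum_congr rfl fun j _ => ?_
    ring
  rw [h4]
  exact Finset.sum_eq_zero fun j _ => by rw [h, mul_zero]

/-- `x` satisfies all relations over `K` which hold on `V` -/
def In (K : Subfield ℂ) (x : κ → ℂ) (V : Set (κ → ℂ)) : Prop :=
  ∀ f : MvPolynomial κ K, (∀ v ∈ V, aeval v f = 0) → aeval x f = 0

/-- `x` is a generic point of `V` over `K` -/
def Gen (K : Subfield ℂ) (x : κ → ℂ) (V : Set (κ → ℂ)) : Prop :=
  ∀ f : MvPolynomial κ K, aeval x f = 0 ↔ ∀ v ∈ V, aeval v f = 0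

/-- the points of `V` have coordinates in `K` -/
def KPts (K : Subfield ℂ) (V : Set (κ → ℂ)) : Prop := ∀ v ∈ V, ∀ i, v i ∈ K

theorem Gen.toIn {x : κ → ℂ} {V : Set (κ → ℂ)} (h : Gen K x V) : In K x V := fun f hf => (h f).2 hf

/-- polynomials over the complex numbers -/
theorem In.complex {x : κ → ℂ} {V : Set (κ → ℂ)} (hV : KPts K V) (h : In K x V)
    {F : MvPolynomial κ ℂ} (hF : ∀ v ∈ V, eval v F = 0) : eval x F = 0 :=
  eval_eq_zero_of_cw fun l => h _ fun v hv => by
    rw [aeval_cw_point (hV v hv), hF v hv, map_zero, ZeroMemClass.coe_zero]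

theorem aeval_incl {L : Subfield ℂ} (h : K ≤ L) (y : κ → ℂ) (f : MvPolynomial κ K) :
    aeval y (map (Subfield.inclusion h) f) = aeval y f := by
  rw [aeval_def, aeval_def, eval₂_map]
  rfl

theorem aeval_coe (y : κ → ℂ) (f : MvPolynomial κ K) :
    eval y (map K.subtype f) = aeval y f := by
  rw [aeval_def, eval_map]
  rfl

theorem Gen.exists_ne {x : κ → ℂ} {V : Set (κ → ℂ)} (hV : KPts K V) (h : Gen K x V)
    {F G : MvPolynomial κ ℂ} {v w : κ → ℂ} (hv : v ∈ V) (hF : eval v F ≠ 0) (hw : w ∈ V)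
    (hG : eval w G ≠ 0) : ∃ u ∈ V, eval u F ≠ 0 ∧ eval u G ≠ 0 := by
  have key : ∀ a : ℂ, a ≠ 0 → ∃ l : ℂ →ₗ[K] K, l a ≠ 0 := by
    intro a ha
    by_contra hcon
    push Not at hcon
    exact ha ((Module.forall_dual_apply_eq_zero_iff K a).1 hcon)
  obtain ⟨l, hl⟩ := key _ hF
  obtain ⟨m, hm⟩ := key _ hG
  have hl' : aeval x (cw K l F) ≠ 0 := by
    intro h0
    have h1 := (h _).1 h0 v hv
    rw [aeval_cw_point (hV v hv)] at h1
    exact hl (Subtype.ext h1)
  have hm' : aeval x (cw K m G) ≠ 0 := by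
    intro h0
    have h1 := (h _).1 h0 w hw
    rw [aeval_cw_point (hV w hw)] at h1
    exact hm (Subtype.ext h1)
  have hlm : ¬ ∀ u ∈ V, aeval u (cw K l F * cw K m G) = 0 := by
    intro h0
    have h1 := (h _).2 h0
    rw [map_mul] at h1
    exact (mul_ne_zero hl' hm') h1
  push Not at hlm
  obtain ⟨u, hu, hne⟩ := hlm
  rw [map_mul, aeval_cw_point (hV u hu), aeval_cw_point (hV u hu)] at hne
  refine ⟨u, hu, fun h0 => hne ?_, fun h0 => hne ?_⟩
  · rw [h0, map_zero, ZeroMemClass.coe_zero, zero_mul]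
  · rw [h0, map_zero, ZeroMemClass.coe_zero, mul_zero]

/-- a homomorphism to the complex numbers with a given prime kernel -/
theorem exists_hom {R : Type} [CommRing R] [Countable R] (L : Type) [Field L] [Countable L]
    [Algebra L ℂ] [Algebra L R] (I : Ideal R) [I.IsPrime] :
    ∃ φ : R →ₐ[L] ℂ, ∀ a, φ a = 0 ↔ a ∈ I := by
  have hdom : IsDomain (R ⧸ I) := Ideal.Quotient.isDomain _
  have hcA : Countable (R ⧸ I) := Ideal.Quotient.mk_surjective.countable
  have hcF : Countable (FractionRing (R ⧸ I)) := countable_fractionRing _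
  obtain ⟨ψ⟩ := exists_emb L (FractionRing (R ⧸ I))
  refine ⟨(ψ.comp (IsScalarTower.toAlgHom L (R ⧸ I) (FractionRing (R ⧸ I)))).comp
    (Ideal.Quotient.mkₐ L I), fun a => ?_⟩
  change ψ (algebraMap (R ⧸ I) (FractionRing (R ⧸ I)) (Ideal.Quotient.mk I a)) = 0 ↔ a ∈ I
  rw [map_eq_zero_iff ψ ψ.injective,
    map_eq_zero_iff _ (IsFractionRing.injective (R ⧸ I) (FractionRing (R ⧸ I)))]
  exact Ideal.Quotient.eq_zero_iff_mem

theorem Gen.exists_over [Finite κ] {L : Subfield ℂ} [Countable L] (_ : K ≤ L) {x : κ → ℂ}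
    {V : Set (κ → ℂ)} (hV : KPts K V) (h : Gen K x V) : ∃ y : κ → ℂ, Gen L y V := by
  have hne : V.Nonempty := by
    by_contra hcon
    rw [Set.not_nonempty_iff_eq_empty] at hcon
    have h1 := (h 1).2 (by rw [hcon]; simp)
    rw [map_one] at h1
    exact one_ne_zero h1
  let I : Ideal (MvPolynomial κ L) := vanishingIdeal L V
  have hI : I.IsPrime := by
    constructor
    · intro h1
      obtain ⟨v, hv⟩ := hne
      have h2 : (1 : MvPolynomial κ L) ∈ I := by rw [h1]; trivial
      have h3 := h2 v hv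
      rw [map_one] at h3
      exact one_ne_zero h3
    · intro F G hFG
      by_contra hcon
      push Not at hcon
      obtain ⟨hF, hG⟩ := hcon
      have hF' : ∃ v ∈ V, aeval v F ≠ 0 := by
        by_contra h0
        push Not at h0
        exact hF h0
      have hG' : ∃ v ∈ V, aeval v G ≠ 0 := by
        by_contra h0
        push Not at h0
        exact hG h0
      obtain ⟨v, hv, hv'⟩ := hF'
      obtain ⟨w, hw, hw'⟩ := hG'
      obtain ⟨u, hu, h1, h2⟩ := h.exists_ne hV (F := map L.subtype F) (G := map L.subtype G) hv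
        (by rwa [aeval_coe]) hw (by rwa [aeval_coe])
      have h3 := hFG u hu
      rw [map_mul] at h3
      rw [aeval_coe] at h1 h2
      exact (mul_ne_zero h1 h2) h3
  have hc : Countable (MvPolynomial κ L) := countable_mvPolynomial κ L
  obtain ⟨φ, hφ⟩ := exists_hom (R := MvPolynomial κ L) L I
  refine ⟨fun i => φ (X i), fun f => ?_⟩
  have h1 : aeval (fun i => φ (X i)) f = φ f := by
    have h2 : (aeval (fun i => φ (X i)) : MvPolynomial κ L →ₐ[L] ℂ) = φ := by
      ext i
      simp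
    rw [h2]
  rw [h1, hφ]
  exact Iff.rfl

/-- conjugates which are generic over `L` -/
theorem Gen.exists_conj [Finite κ] [Countable K] {L : Subfield ℂ} [Countable L] (hKL : K ≤ L)
    {x : κ → ℂ} {V : Set (κ → ℂ)} (hV : KPts K V) (h : Gen K x V) :
    ∃ σ : ℂ ≃+* ℂ, (∀ a ∈ K, σ a = a) ∧ Gen L (fun i => σ (x i)) V := by
  obtain ⟨y, hy⟩ := h.exists_over hKL hV
  have h1 : ∀ f : MvPolynomial κ K, aeval x f = 0 ↔ aeval y f = 0 := by
    intro f
    rw [h f, ← aeval_incl hKL y f, hy]
    simp only [aeval_incl hKL]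
  obtain ⟨σ, h2, h3⟩ := Pool.Agent.U907.GP.exists_conj K h1
  refine ⟨σ, h2, ?_⟩
  have h4 : (fun i => σ (x i)) = y := funext h3
  rw [h4]
  exact hy

/-- the points with coordinates in `K` which satisfy all relations over `K` of `x` -/
def zk (K : Subfield ℂ) (x : κ → ℂ) : Set (κ → ℂ) :=
  {v | (∀ i, v i ∈ K) ∧ ∀ f : MvPolynomial κ K, aeval x f = 0 → aeval v f = 0}

theorem kPts_zk (x : κ → ℂ) : KPts K (zk K x) := fun _ hv => hv.1

/-- Hilbert's Nullstellensatz -/
theorem gen_zk [Finite κ] [IsAlgClosed K] (x : κ → ℂ) : Gen K x (zk K x) := by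
  intro f
  refine ⟨fun h v hv => hv.2 f h, fun h => ?_⟩
  have hI : (RingHom.ker (aeval x : MvPolynomial κ K →ₐ[K] ℂ)).IsPrime := RingHom.ker_isPrime _
  have h1 := IsPrime.vanishingIdeal_zeroLocus (K := K)
    (RingHom.ker (aeval x : MvPolynomial κ K →ₐ[K] ℂ))
  have h2 : f ∈ vanishingIdeal K (zeroLocus K
      (RingHom.ker (aeval x : MvPolynomial κ K →ₐ[K] ℂ))) := by
    intro v hv
    have h3 : ∀ g : MvPolynomial κ K, aeval (fun i => (v i : ℂ)) g = ((aeval v g : K) : ℂ) := by
      intro g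
      exact (aeval_algebraMap_apply ℂ v g)
    have h4 := h (fun i => (v i : ℂ)) ⟨fun i => (v i).2, fun g hg => by
      rw [h3, hv g hg, ZeroMemClass.coe_zero]⟩
    rw [h3] at h4
    exact Subtype.ext h4
  rw [h1] at h2
  exact h2

end

end Pool.Agent.U907.GP
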