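import Pool.Agent.U907.GP.Grp

/-!
# The growth of the products of quotients of conjugates
-/

set_option autoImplicit false
set_option linter.unusedSectionVars false

namespace Pool.Agent.U907.GP

open MvPolynomial Matrix
open scoped Pointwise

noncomputable section

variable {ι : Type} [Fintype ι] [DecidableEq ι] {K : Subfield ℂ}

theorem exists_right {δ : GL ι ℂ} (hδ : ∀ d, pt δ d ∈ K) (f : MvPolynomial (D ι) K) :
    ∃ f' : MvPolynomial (D ι) K, ∀ x : GL ι ℂ, aeval (pt x) f' = aeval (pt (x * δ)) f := by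
  obtain ⟨G, hG⟩ := exists_evR (K := K) le_rfl hδ (bind₁ (mulP K) f)
  exact ⟨G, fun x => by rw [hG, aeval_mulP]⟩

/-- the automorphism fixes `k` -/
def Fx (k : Subfield ℂ) (σ : ℂ ≃+* ℂ) : Prop := ∀ a ∈ k, σ a = a

/-- the quotients of conjugates over `k` of `P` which are conjugate over `K` -/
def Q (k K : Subfield ℂ) (P : GL ι ℂ) : Set (GL ι ℂ) :=
  {c | ∃ σ τ : ℂ ≃+* ℂ, Fx k σ ∧ Fx k τ ∧ (∀ a ∈ K, σ a = τ a) ∧ c = cj σ P * (cj τ P)⁻¹}

/-- the set of the quotients of the `K`-points of the closure of the conjugate of `P` -/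
def Y (K : Subfield ℂ) (P : GL ι ℂ) (τ : ℂ ≃+* ℂ) : Set (GL ι ℂ) :=
  Z K (cj τ P) * (Z K (cj τ P))⁻¹

/-- the products of `m` sets `Y` -/
inductive IsW (k K : Subfield ℂ) (P : GL ι ℂ) : ℕ → Set (GL ι ℂ) → Prop
  | zero : IsW k K P 0 1
  | succ {m : ℕ} {W : Set (GL ι ℂ)} {τ : ℂ ≃+* ℂ} :
      IsW k K P m W → Fx k τ → IsW k K P (m + 1) (W * Y K P τ)

theorem kP_Y (P : GL ι ℂ) (τ : ℂ ≃+* ℂ) : KP K (Y K P τ) := (kP_Z _).mul (kP_Z _).inv

theorem inv_mem_Y {P : GL ι ℂ} {τ : ℂ ≃+* ℂ} {γ : GL ι ℂ} (h : γ ∈ Y K P τ) :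
    γ⁻¹ ∈ Y K P τ := by
  obtain ⟨v, hv, w, hw, rfl⟩ := h
  refine ⟨w⁻¹, hw, v⁻¹, Set.inv_mem_inv.2 hv, ?_⟩
  simp

section

variable [IsAlgClosed K]

theorem one_mem_Y (P : GL ι ℂ) (τ : ℂ ≃+* ℂ) : (1 : GL ι ℂ) ∈ Y K P τ := by
  obtain ⟨v, hv⟩ := (genG_Z (K := K) (cj τ P)).nonempty
  exact ⟨v, hv, v⁻¹, Set.inv_mem_inv.2 hv, mul_inv_cancel v⟩

theorem IsW.kP {k : Subfield ℂ} {P : GL ι ℂ} {m : ℕ} {W : Set (GL ι ℂ)} (h : IsW k K P m W) :
    KP K W := by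
  induction h with
  | zero => exact KP.one
  | succ _ _ ih => exact ih.mul (kP_Y _ _)

theorem IsW.one_mem {k : Subfield ℂ} {P : GL ι ℂ} {m : ℕ} {W : Set (GL ι ℂ)}
    (h : IsW k K P m W) : (1 : GL ι ℂ) ∈ W := by
  induction h with
  | zero => exact Set.mem_one.2 rfl
  | succ _ _ ih => exact ⟨1, ih, 1, one_mem_Y _ _, mul_one 1⟩

variable {k : Subfield ℂ}

theorem Q.inG (hst : ∀ σ, Fx k σ → ∀ a, a ∈ K ↔ σ a ∈ K) {P c : GL ι ℂ}
    (hc : c ∈ Q k K P) : ∃ τ, Fx k τ ∧ InG K c (Y K P τ) := by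
  obtain ⟨σ, τ, hσ, hτ, h, rfl⟩ := hc
  refine ⟨τ, hτ, ?_⟩
  have h1 : cj σ P = cj (τ.symm.trans σ) (cj τ P) := by
    rw [cj_cj]
    congr 1
    ext a
    simp
  have h2 : ∀ a ∈ K, (τ.symm.trans σ) a = a := by
    intro a ha
    have h3 : τ.symm a ∈ K := (hst τ hτ _).2 (by rwa [τ.apply_symm_apply])
    rw [RingEquiv.trans_apply, h _ h3, τ.apply_symm_apply]
  have h4 : InG K (cj σ P) (Z K (cj τ P)) := by
    rw [h1]
    exact (genG_Z (K := K) (cj τ P)).toInG.cj_fix h2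
  exact h4.mul (genG_Z (K := K) (cj τ P)).toInG.inv (kP_Z _).inv

theorem exists_Q [Countable K] (hkK : k ≤ K) (hst : ∀ σ, Fx k σ → ∀ a, a ∈ K ↔ σ a ∈ K)
    (P : GL ι ℂ) {g : GL ι ℂ} {W : Set (GL ι ℂ)} (hg : GenG K g W) {τ : ℂ ≃+* ℂ}
    (hτ : Fx k τ) : ∃ c ∈ Q k K P, GenG K (g * c) (W * Y K P τ) := by
  obtain ⟨σ₁, h1, h1'⟩ := hg.mul (genG_Z (K := K) (cj τ P)) (kP_Z _)
  obtain ⟨σ₂, h2, h2'⟩ := h1'.mul (genG_Z (K := K) (cj τ P)).inv (kP_Z _).inv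
  refine ⟨cj (τ.trans σ₁) P * (cj (τ.trans σ₂) P)⁻¹,
    ⟨τ.trans σ₁, τ.trans σ₂, fun a ha => ?_, fun a ha => ?_, fun a ha => ?_, rfl⟩, ?_⟩
  · rw [RingEquiv.trans_apply, hτ a ha, h1 a (hkK ha)]
  · rw [RingEquiv.trans_apply, hτ a ha, h2 a (hkK ha)]
  · rw [RingEquiv.trans_apply, RingEquiv.trans_apply, h1 _ ((hst τ hτ a).1 ha),
      h2 _ ((hst τ hτ a).1 ha)]
  · rw [← cj_cj, ← cj_cj, ← cj_inv, ← mul_assoc, Y, ← mul_assoc]
    exact h2'

theorem genG_one : GenG K (1 : GL ι ℂ) 1 := by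
  intro f
  constructor
  · intro h v hv
    rw [Set.mem_one.1 hv]
    exact h
  · exact fun h => h 1 (Set.mem_one.2 rfl)

theorem exists_IsW (hst : ∀ σ, Fx k σ → ∀ a, a ∈ K ↔ σ a ∈ K) {P : GL ι ℂ} {m : ℕ}
    {g : GL ι ℂ} (hg : g ∈ Q k K P ^ m) : ∃ W, IsW k K P m W ∧ InG K g W := by
  induction m generalizing g with
  | zero =>
    rw [pow_zero, Set.mem_one] at hg
    rw [hg]
    exact ⟨1, IsW.zero, genG_one.toInG⟩
  | succ m ih =>
    rw [pow_succ] at hg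
    obtain ⟨g', hg', c, hc, rfl⟩ := hg
    obtain ⟨W, hW, h1⟩ := ih hg'
    obtain ⟨τ, hτ, h2⟩ := Q.inG hst hc
    exact ⟨_, hW.succ hτ, h1.mul h2 (kP_Y _ _)⟩

theorem IsW.exists_gen [Countable K] (hkK : k ≤ K)
    (hst : ∀ σ, Fx k σ → ∀ a, a ∈ K ↔ σ a ∈ K) {P : GL ι ℂ} {m : ℕ}
    {W : Set (GL ι ℂ)} (h : IsW k K P m W) : ∃ g ∈ Q k K P ^ m, GenG K g W := by
  induction h with
  | zero => exact ⟨1, by rw [pow_zero]; exact Set.mem_one.2 rfl, genG_one⟩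
  | succ _ hτ ih =>
    obtain ⟨g, hg, h1⟩ := ih
    obtain ⟨c, hc, h2⟩ := exists_Q hkK hst P h1 hτ
    exact ⟨g * c, by rw [pow_succ]; exact ⟨g, hg, c, hc, rfl⟩, h2⟩

end

/-! ### The growth function -/

/-- the maximal transcendence degree of a product of `m` quotients -/
def gr (k K : Subfield ℂ) (P : GL ι ℂ) (m : ℕ) : ℕ := sSup (tdg K '' (Q k K P ^ m))

variable {k : Subfield ℂ} {P : GL ι ℂ}

theorem one_mem_Q : (1 : GL ι ℂ) ∈ Q k K P :=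
  ⟨RingEquiv.refl ℂ, RingEquiv.refl ℂ, fun _ _ => rfl, fun _ _ => rfl, fun _ _ => rfl,
    (mul_inv_cancel _).symm⟩

theorem bdd (s : Set (GL ι ℂ)) : BddAbove (tdg K '' s) := by
  refine ⟨Nat.card (D ι), ?_⟩
  rintro _ ⟨g, _, rfl⟩
  exact td_le_card K _

theorem tdg_le_gr {m : ℕ} {g : GL ι ℂ} (hg : g ∈ Q k K P ^ m) : tdg K g ≤ gr k K P m :=
  le_csSup (bdd _) ⟨g, hg, rfl⟩

theorem one_mem_pow (m : ℕ) : (1 : GL ι ℂ) ∈ Q k K P ^ m := by
  induction m with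
  | zero => rw [pow_zero]; exact Set.mem_one.2 rfl
  | succ m ih => rw [pow_succ]; exact ⟨1, ih, 1, one_mem_Q, mul_one 1⟩

theorem exists_gr (m : ℕ) : ∃ g ∈ Q k K P ^ m, tdg K g = gr k K P m := by
  obtain ⟨g, hg, h⟩ := Nat.sSup_mem (s := tdg K '' (Q k K P ^ m)) ⟨_, 1, one_mem_pow m, rfl⟩ (bdd _)
  exact ⟨g, hg, h⟩

theorem gr_le_succ (m : ℕ) : gr k K P m ≤ gr k K P (m + 1) := by
  obtain ⟨g, hg, h⟩ := exists_gr (k := k) (K := K) (P := P) m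
  rw [← h]
  refine tdg_le_gr ?_
  rw [pow_succ]
  exact ⟨g, hg, 1, one_mem_Q, mul_one g⟩

/-- the group generated by the sets `Y` -/
def Gam (k K : Subfield ℂ) (P : GL ι ℂ) : Subgroup (GL ι ℂ) :=
  Subgroup.closure {γ | ∃ τ, Fx k τ ∧ γ ∈ Y K P τ}

theorem kP_Gam : KP K (Gam k K P : Set (GL ι ℂ)) := by
  intro γ hγ
  induction hγ using Subgroup.closure_induction with
  | mem x hx =>
    obtain ⟨τ, -, h⟩ := hx
    exact kP_Y _ _ _ h
  | one => exact pt_one_mem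
  | mul x y _ _ hx hy => exact pt_mul_mem hx hy
  | inv x _ hx => exact pt_inv_mem hx

theorem IsW.le_Gam {m : ℕ} {W : Set (GL ι ℂ)} (h : IsW k K P m W) :
    W ⊆ (Gam k K P : Set (GL ι ℂ)) := by
  induction h with
  | zero =>
    intro x hx
    rw [Set.mem_one.1 hx]
    exact (Gam k K P).one_mem
  | succ _ hτ ih =>
    rintro _ ⟨x, hx, y, hy, rfl⟩
    exact (Gam k K P).mul_mem (ih hx) (Subgroup.subset_closure ⟨_, hτ, hy⟩)

/-- if the growth stops, the product is a generic point of the group -/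
theorem exists_gen_Gam [IsAlgClosed K] [Countable K] (hkK : k ≤ K)
    (hst : ∀ σ, Fx k σ → ∀ a, a ∈ K ↔ σ a ∈ K) {m : ℕ}
    (hm : gr k K P (m + 1) ≤ gr k K P m) :
    ∃ g ∈ Q k K P ^ m, tdg K g = gr k K P m ∧ GenG K g (Gam k K P : Set (GL ι ℂ)) := by
  obtain ⟨g₀, hg₀, h0⟩ := exists_gr (k := k) (K := K) (P := P) m
  obtain ⟨W, hW, h1⟩ := exists_IsW hst hg₀
  obtain ⟨g, hg, h2⟩ := hW.exists_gen hkK hst
  have h3 : tdg K g = gr k K P m :=
    le_antisymm (tdg_le_gr hg) (h0 ▸ h1.tdg_le h2)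
  refine ⟨g, hg, h3, ?_⟩
  -- stability
  have h4 : ∀ τ, Fx k τ → ∀ f : MvPolynomial (D ι) K, (∀ w ∈ W, aeval (pt w) f = 0) →
      ∀ w ∈ W * Y K P τ, aeval (pt w) f = 0 := by
    intro τ hτ f hf
    obtain ⟨g', hg', h5⟩ := (hW.succ hτ).exists_gen hkK hst
    have h6 : InG K g (W * Y K P τ) := h2.toInG.mono fun w hw =>
      ⟨w, hw, 1, one_mem_Y _ _, mul_one w⟩
    have h7 := h6.gen h5 (by rw [h3]; exact (tdg_le_gr hg').trans hm)
    exact (h7 f).1 ((h2 f).2 hf)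
  let R : GL ι ℂ → Prop := fun γ => ∀ f : MvPolynomial (D ι) K,
    (∀ w ∈ W, aeval (pt w) f = 0) → ∀ w ∈ W, aeval (pt (w * γ)) f = 0
  have h5 : ∀ γ ∈ Gam k K P, R γ ∧ R γ⁻¹ := by
    intro γ hγ
    induction hγ using Subgroup.closure_induction with
    | mem x hx =>
      obtain ⟨τ, hτ, h⟩ := hx
      exact ⟨fun f hf w hw => h4 τ hτ f hf _ ⟨w, hw, x, h, rfl⟩,
        fun f hf w hw => h4 τ hτ f hf _ ⟨w, hw, _, inv_mem_Y h, rfl⟩⟩
    | one => exact ⟨fun f hf w hw => by rw [mul_one]; exact hf w hw,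
        fun f hf w hw => by rw [inv_one, mul_one]; exact hf w hw⟩
    | mul x y hx' hy' hx hy =>
      have key : ∀ a b : GL ι ℂ, (∀ d, pt b d ∈ K) → R a → R b → R (a * b) := by
        intro a b hb ha hb' f hf w hw
        obtain ⟨f', hf'⟩ := exists_right hb f
        rw [← mul_assoc, ← hf']
        exact ha f' (fun u hu => by rw [hf']; exact hb' f hf u hu) w hw
      refine ⟨key x y (kP_Gam y hy') hx.1 hy.1, ?_⟩
      rw [_root_.mul_inv_rev]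
      exact key _ _ (pt_inv_mem (kP_Gam x hx')) hy.2 hx.2
    | inv x _ hx => exact ⟨hx.2, by rw [inv_inv]; exact hx.1⟩
  intro f
  constructor
  · intro hf γ hγ
    have h6 := (h5 γ hγ).1 f ((h2 f).1 hf) 1 hW.one_mem
    rwa [one_mul] at h6
  · exact fun hf => (h2 f).2 fun w hw => hf w (hW.le_Gam hw)

/-- the closure of the group `Gam`: the smallest period group -/
def GG (k K : Subfield ℂ) (P : GL ι ℂ) : Subgroup (GL ι ℂ) where
  carrier := {x | InG K x (Gam k K P : Set (GL ι ℂ))}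
  one_mem' := InG.of_mem (Gam k K P).one_mem
  mul_mem' := by
    intro x y hx hy
    refine (InG.mul hx hy kP_Gam).mono ?_
    rintro _ ⟨a, ha, b, hb, rfl⟩
    exact (Gam k K P).mul_mem ha hb
  inv_mem' := by
    intro x hx
    refine (InG.inv hx).mono ?_
    intro a ha
    have h1 := (Gam k K P).inv_mem ha
    rwa [inv_inv] at h1

theorem mem_GG {x : GL ι ℂ} : x ∈ GG k K P ↔ InG K x (Gam k K P : Set (GL ι ℂ)) := Iff.rfl

/-- the dimension of a subgroup -/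
def dimG (K : Subfield ℂ) (G : Subgroup (GL ι ℂ)) : ℕ := sSup (tdg K '' (G : Set (GL ι ℂ)))

theorem tdg_le_dimG {G : Subgroup (GL ι ℂ)} {x : GL ι ℂ} (hx : x ∈ G) : tdg K x ≤ dimG K G :=
  le_csSup (bdd _) ⟨x, hx, rfl⟩

theorem dimG_eq {g : GL ι ℂ} (hg : GenG K g (Gam k K P : Set (GL ι ℂ))) :
    dimG K (GG k K P) = tdg K g := by
  refine le_antisymm (csSup_le ⟨_, 1, (GG k K P).one_mem, rfl⟩ ?_) (tdg_le_dimG hg.toInG)
  rintro _ ⟨x, hx, rfl⟩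
  exact InG.tdg_le hx hg

theorem pow_le_GG [IsAlgClosed K] (hst : ∀ σ, Fx k σ → ∀ a, a ∈ K ↔ σ a ∈ K) {m : ℕ}
    {g : GL ι ℂ} (hg : g ∈ Q k K P ^ m) : g ∈ GG k K P := by
  obtain ⟨W, hW, h1⟩ := exists_IsW hst hg
  exact h1.mono hW.le_Gam

section

variable [IsAlgClosed K] [Countable K] (hkK : k ≤ K)
  (hst : ∀ σ, Fx k σ → ∀ a, a ∈ K ↔ σ a ∈ K)

include hst in
theorem gr_le_dimG (m : ℕ) : gr k K P m ≤ dimG K (GG k K P) := by
  obtain ⟨g, hg, h⟩ := exists_gr (k := k) (K := K) (P := P) m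
  rw [← h]
  exact tdg_le_dimG (pow_le_GG hst hg)

include hkK hst in
/-- **strict growth** -/
theorem gr_eq_of_le {m : ℕ} (hm : gr k K P (m + 1) ≤ gr k K P m) :
    gr k K P m = dimG K (GG k K P) := by
  obtain ⟨g, -, h1, h2⟩ := exists_gen_Gam hkK hst hm
  rw [← h1, dimG_eq h2]

include hkK hst in
theorem gr_lt {m : ℕ} (hm : gr k K P m < dimG K (GG k K P)) :
    gr k K P m < gr k K P (m + 1) := by
  by_contra hcon
  have h1 := gr_eq_of_le hkK hst (not_lt.1 hcon)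
  omega

include hkK hst in
theorem gr_ge (m : ℕ) : min (dimG K (GG k K P)) (gr k K P 1 + m) ≤ gr k K P (m + 1) := by
  induction m with
  | zero => exact min_le_right _ _
  | succ m ih =>
    by_cases h : gr k K P (m + 1) < dimG K (GG k K P)
    · have h1 := gr_lt hkK hst h
      omega
    · have h1 := gr_le_succ (k := k) (K := K) (P := P) (m + 1)
      omega

include hkK hst in
theorem exists_gr_eq : ∃ m, gr k K P m = dimG K (GG k K P) := by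
  refine ⟨dimG K (GG k K P) + 1, le_antisymm (gr_le_dimG hst _) ?_⟩
  have h1 := gr_ge (P := P) hkK hst (dimG K (GG k K P))
  omega

include hkK hst in
theorem gen_of_tdg {g : GL ι ℂ} (hg : g ∈ GG k K P) (h : dimG K (GG k K P) ≤ tdg K g) :
    GenG K g (Gam k K P : Set (GL ι ℂ)) := by
  obtain ⟨m, hm⟩ := exists_gr_eq (P := P) hkK hst
  obtain ⟨g', -, h1, h2⟩ := exists_gen_Gam hkK hst (m := m)
    (by rw [hm]; exact gr_le_dimG hst _)
  exact InG.gen hg h2 (by rw [h1, hm]; exact h)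

include hkK in
theorem tdg_le_gr_one (hst : ∀ σ, Fx k σ → ∀ a, a ∈ K ↔ σ a ∈ K) : tdg K P ≤ gr k K P 1 := by
  obtain ⟨z, hz⟩ := (genG_Z (K := K) P).nonempty
  have h1 : InG K (P * z⁻¹) (1 * Y K P (RingEquiv.refl ℂ)) := by
    rw [one_mul, Y, cj_refl]
    exact (genG_Z (K := K) P).toInG.mul (InG.of_mem (Set.inv_mem_inv.2 hz)) (kP_Z _).inv
  have hW : IsW k K P 1 (1 * Y K P (RingEquiv.refl ℂ)) := IsW.zero.succ fun _ _ => rfl
  obtain ⟨g, hg, h2⟩ := hW.exists_gen hkK hst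
  rw [← tdg_mul_right (g := P) (pt_inv_mem (kP_Z P z hz))]
  exact (h1.tdg_le h2).trans (tdg_le_gr hg)

theorem mul_inv_mem_GG {z : GL ι ℂ} (hz : z ∈ Z K P) : P * z⁻¹ ∈ GG k K P := by
  have h1 : InG K (P * z⁻¹) (Y K P (RingEquiv.refl ℂ)) := by
    rw [Y, cj_refl]
    exact (genG_Z (K := K) P).toInG.mul (InG.of_mem (Set.inv_mem_inv.2 hz)) (kP_Z _).inv
  exact h1.mono fun y hy => Subgroup.subset_closure ⟨_, fun _ _ => rfl, hy⟩

include hkK hst in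
/-- **the criterion** -/
theorem tdg_eq_iff : tdg K P = dimG K (GG k K P) ↔ gr k K P 2 ≤ tdg K P := by
  have h1 := tdg_le_gr_one (P := P) hkK hst
  have h2 : gr k K P 1 ≤ gr k K P 2 := gr_le_succ (k := k) (K := K) (P := P) 1
  have h3 := gr_le_dimG (P := P) hst 2
  have h4 := gr_le_dimG (P := P) hst 1
  constructor
  · intro h
    rw [h]
    exact h3
  · intro h
    have h5 := gr_eq_of_le (P := P) hkK hst (m := 1) (h.trans h1)
    omega

end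

end

end Pool.Agent.U907.GP
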