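import Mathlib

/-!
# Transcendence degree and specialization

A surjective homomorphism between finitely generated domains over a field does not increase the
transcendence degree; if the transcendence degree is preserved it is injective.
-/

set_option autoImplicit false

namespace Pool.Agent.U907.GP

open MvPolynomial Cardinal Algebra

noncomputable section

theorem injective_of_trdeg {R A B : Type} [Field R] [CommRing A] [IsDomain A] [CommRing B]
    [IsDomain B] [Algebra R A] [Algebra R B] (f : A →ₐ[R] B) (hf : Function.Surjective f)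
    (hfin : Algebra.trdeg R A < ℵ₀) (hle : Algebra.trdeg R A ≤ Algebra.trdeg R B) :
    Function.Injective f := by
  obtain ⟨s, hs⟩ := exists_isTranscendenceBasis R B
  have hcard := hs.cardinalMk_eq_trdeg
  let g : s → A := fun b => Function.surjInv hf (b : B)
  have hg : ∀ b, f (g b) = b := fun b => Function.surjInv_eq hf _
  have hfg : (f ∘ g) = ((↑) : s → B) := funext hg
  have hgi : AlgebraicIndependent R g := AlgebraicIndependent.of_comp f (by rw [hfg]; exact hs.1)
  have hgb : IsTranscendenceBasis R g :=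
    hgi.isTranscendenceBasis_of_trdeg_le hfin (by rw [hcard]; exact hle)
  have halg : Algebra.IsAlgebraic (Algebra.adjoin R (Set.range g)) A := hgb.isAlgebraic
  rw [injective_iff_map_eq_zero]
  intro a ha
  by_contra hne
  obtain ⟨q, hq0, hq⟩ := (halg.isAlgebraic a).exists_nonzero_coeff_and_aeval_eq_zero
    (mem_nonZeroDivisors_of_ne_zero hne)
  apply hq0
  have h1 : f (algebraMap (Algebra.adjoin R (Set.range g)) A (q.coeff 0)) = 0 := by
    have h2 := congrArg f hq
    rw [map_zero, Polynomial.aeval_def] at h2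
    have h3 := Polynomial.hom_eval₂ q (algebraMap (Algebra.adjoin R (Set.range g)) A)
      (f : A →+* B) a
    have h4 : ((f : A →+* B) a) = 0 := ha
    rw [h4, Polynomial.eval₂_at_zero] at h3
    exact h3.symm.trans h2
  -- `f` is injective on the subalgebra
  have h5 : Function.Injective (fun z : Algebra.adjoin R (Set.range g) => f z) := by
    have h6 : (fun z : Algebra.adjoin R (Set.range g) => f z) =
        (aeval (f ∘ g) : MvPolynomial s R →ₐ[R] B) ∘ hgi.aevalEquiv.symm := by
      funext z
      obtain ⟨p, rfl⟩ := hgi.aevalEquiv.surjective z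
      rw [Function.comp_apply, AlgEquiv.symm_apply_apply,
        AlgebraicIndependent.aevalEquiv_apply_coe]
      exact comp_aeval_apply g f p
    rw [h6]
    have h7 : Function.Injective (aeval (f ∘ g) : MvPolynomial s R →ₐ[R] B) := by
      rw [hfg]
      exact hs.1
    exact h7.comp hgi.aevalEquiv.symm.injective
  have h8 : f ((q.coeff 0 : Algebra.adjoin R (Set.range g)) : A) =
      f ((0 : Algebra.adjoin R (Set.range g)) : A) := by
    rw [ZeroMemClass.coe_zero, map_zero]
    exact h1
  exact h5 h8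

/-- the homomorphism between the images -/
theorem exists_range_hom {k R : Type} [Field k] [CommRing R] [Algebra k R] [Algebra k ℂ]
    (f g : R →ₐ[k] ℂ) (h : ∀ a, f a = 0 → g a = 0) :
    ∃ ψ : f.range →ₐ[k] g.range, ∀ a, ψ (f.rangeRestrict a) = g.rangeRestrict a := by
  let φ : (R ⧸ RingHom.ker f) →ₐ[k] g.range :=
    Ideal.Quotient.liftₐ (RingHom.ker f) g.rangeRestrict fun a ha => Subtype.ext (h a ha)
  let e : (R ⧸ RingHom.ker f) →ₐ[k] f.range :=
    Ideal.Quotient.liftₐ (RingHom.ker f) f.rangeRestrict fun a ha => Subtype.ext ha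
  have he : Function.Bijective e := by
    constructor
    · rw [injective_iff_map_eq_zero]
      intro a ha
      obtain ⟨b, rfl⟩ := Ideal.Quotient.mk_surjective a
      exact Ideal.Quotient.eq_zero_iff_mem.2 (congrArg Subtype.val ha)
    · rintro ⟨_, b, rfl⟩
      exact ⟨Ideal.Quotient.mk _ b, rfl⟩
  let e' := AlgEquiv.ofBijective e he
  refine ⟨φ.comp (e'.symm : f.range →ₐ[k] _), fun a => ?_⟩
  have h1 : e'.symm (f.rangeRestrict a) = Ideal.Quotient.mk _ a := by
    rw [AlgEquiv.symm_apply_eq]
    rfl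
  change φ (e'.symm (f.rangeRestrict a)) = _
  rw [h1]
  rfl

theorem trdeg_range_le {k R : Type} [Field k] [CommRing R] [Algebra k R] [Algebra k ℂ]
    (f g : R →ₐ[k] ℂ) (h : ∀ a, f a = 0 → g a = 0) :
    Algebra.trdeg k g.range ≤ Algebra.trdeg k f.range := by
  obtain ⟨ψ, hψ⟩ := exists_range_hom f g h
  refine trdeg_le_of_surjective ψ ?_
  rintro ⟨_, b, rfl⟩
  exact ⟨f.rangeRestrict b, hψ b⟩

theorem ker_of_trdeg_le {k R : Type} [Field k] [CommRing R] [Algebra k R] [Algebra k ℂ]
    (f g : R →ₐ[k] ℂ) (h : ∀ a, f a = 0 → g a = 0) (hfin : Algebra.trdeg k f.range < ℵ₀)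
    (hle : Algebra.trdeg k f.range ≤ Algebra.trdeg k g.range) {a : R} (ha : g a = 0) :
    f a = 0 := by
  obtain ⟨ψ, hψ⟩ := exists_range_hom f g h
  have h1 := injective_of_trdeg ψ (by
    rintro ⟨_, b, rfl⟩
    exact ⟨f.rangeRestrict b, hψ b⟩) hfin hle
  have h2 : ψ (f.rangeRestrict a) = 0 := by
    rw [hψ]
    exact Subtype.ext ha
  rw [map_eq_zero_iff _ h1] at h2
  exact congrArg Subtype.val h2

variable {κ κ' : Type} (K : Subfield ℂ)

/-- the transcendence degree over `K` of the algebra generated by the coordinates of `x` -/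
def td (x : κ → ℂ) : ℕ := Cardinal.toNat (Algebra.trdeg K (Algebra.adjoin K (Set.range x)))

theorem td_eq (x : κ → ℂ) : td K x =
    Cardinal.toNat (Algebra.trdeg K (aeval x : MvPolynomial κ K →ₐ[K] ℂ).range) := by
  rw [td, Algebra.adjoin_range_eq_range_aeval]

theorem trdeg_lt [Finite κ] (x : κ → ℂ) :
    Algebra.trdeg K (aeval x : MvPolynomial κ K →ₐ[K] ℂ).range < ℵ₀ := by
  have h1 := lift_trdeg_le_of_surjective
    (aeval x : MvPolynomial κ K →ₐ[K] ℂ).rangeRestrict (AlgHom.rangeRestrict_surjective _)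
  rw [Cardinal.lift_id, Cardinal.lift_id] at h1
  refine h1.trans_lt ?_
  rw [MvPolynomial.trdeg_of_isDomain, Cardinal.lift_lt_aleph0]
  exact Cardinal.mk_lt_aleph0

theorem td_le_card [Finite κ] (x : κ → ℂ) : td K x ≤ Nat.card κ := by
  have h1 := lift_trdeg_le_of_surjective
    (aeval x : MvPolynomial κ K →ₐ[K] ℂ).rangeRestrict (AlgHom.rangeRestrict_surjective _)
  rw [Cardinal.lift_id, Cardinal.lift_id, MvPolynomial.trdeg_of_isDomain, Cardinal.lift_id] at h1
  rw [td_eq]
  exact Cardinal.toNat_le_toNat h1 Cardinal.mk_lt_aleph0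

variable {K}

theorem td_le [Finite κ] {x y : κ → ℂ}
    (h : ∀ f : MvPolynomial κ K, aeval x f = 0 → aeval y f = 0) : td K y ≤ td K x := by
  rw [td_eq, td_eq]
  exact Cardinal.toNat_le_toNat (trdeg_range_le _ _ h) (trdeg_lt K x)

theorem rel_of_td_le [Finite κ] {x y : κ → ℂ}
    (h : ∀ f : MvPolynomial κ K, aeval x f = 0 → aeval y f = 0) (hle : td K x ≤ td K y)
    {f : MvPolynomial κ K} (hf : aeval y f = 0) : aeval x f = 0 := by
  refine ker_of_trdeg_le _ _ h (trdeg_lt K x) ?_ hf
  rw [td_eq, td_eq] at hle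
  rw [← Cardinal.cast_toNat_of_lt_aleph0 (trdeg_lt K x),
    ← Cardinal.cast_toNat_of_lt_aleph0 (trdeg_lt K y)]
  exact_mod_cast hle

/-- the coordinates of `y` are polynomials in the coordinates of `x` -/
theorem td_le_of_mem [Finite κ] {x : κ → ℂ} {y : κ' → ℂ}
    (h : ∀ j, y j ∈ Algebra.adjoin K (Set.range x)) : td K y ≤ td K x := by
  have h1 : Algebra.adjoin K (Set.range y) ≤ Algebra.adjoin K (Set.range x) :=
    Algebra.adjoin_le (by rintro _ ⟨j, rfl⟩; exact h j)
  have h2 := trdeg_le_of_injective (Subalgebra.inclusion h1)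
    (Subalgebra.inclusion_injective h1)
  have h3 := trdeg_lt K x
  rw [← Algebra.adjoin_range_eq_range_aeval] at h3
  exact Cardinal.toNat_le_toNat h2 h3

/-- algebraic extensions -/
theorem trdeg_eq_of_isAlgebraic {A B : Subalgebra K ℂ} (h : A ≤ B)
    (hB : ∀ b ∈ B, IsAlgebraic A b) : Algebra.trdeg K A = Algebra.trdeg K B := by
  let _ : Algebra A B := (Subalgebra.inclusion h).toAlgebra
  have _ : IsScalarTower K A B := IsScalarTower.of_algebraMap_eq fun _ => rfl
  have _ : IsScalarTower A B ℂ := IsScalarTower.of_algebraMap_eq fun _ => rfl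
  have _ : FaithfulSMul A B := (faithfulSMul_iff_algebraMap_injective _ _).2
    (Subalgebra.inclusion_injective h)
  have _ : Algebra.IsAlgebraic A B := ⟨fun b => by
    have h1 := hB b b.2
    exact (isAlgebraic_algebraMap_iff (A := ℂ) (R := A) Subtype.val_injective).1 h1⟩
  have _ : FaithfulSMul K A := (faithfulSMul_iff_algebraMap_injective _ _).2
    (algebraMap K A).injective
  have h1 := trdeg_add_eq K A (A := B)
  have h2 : trdeg A B = 0 := trdeg_eq_zero
  rw [h2, add_zero] at h1
  exact h1

end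

end Pool.Agent.U907.GP
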