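import Pool.Agent.U907.GP.Prod
import Pool.Agent.U907.GP.Trd

/-!
# Generic points of sets of matrices
-/

set_option autoImplicit false

namespace Pool.Agent.U907.GP

open MvPolynomial Matrix
open scoped Pointwise

noncomputable section

/-- the indices of the entries of a matrix and of its inverse -/
abbrev D (ι : Type) : Type := (ι × ι) ⊕ (ι × ι)

variable {ι : Type} [Fintype ι] [DecidableEq ι]

/-- the entries of a matrix and of its inverse -/
def pt (g : GL ι ℂ) : D ι → ℂ :=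
  Sum.elim (fun p => (g : Matrix ι ι ℂ) p.1 p.2) (fun p => ((g⁻¹ : GL ι ℂ) : Matrix ι ι ℂ) p.1 p.2)

/-- the conjugate matrix -/
def cj (σ : ℂ ≃+* ℂ) (g : GL ι ℂ) : GL ι ℂ :=
  Matrix.GeneralLinearGroup.map (σ : ℂ →+* ℂ) g

theorem cj_mul (σ : ℂ ≃+* ℂ) (g h : GL ι ℂ) : cj σ (g * h) = cj σ g * cj σ h := map_mul _ _ _

theorem cj_inv (σ : ℂ ≃+* ℂ) (g : GL ι ℂ) : cj σ g⁻¹ = (cj σ g)⁻¹ := map_inv _ _

theorem cj_apply (σ : ℂ ≃+* ℂ) (g : GL ι ℂ) (i j : ι) :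
    (cj σ g : Matrix ι ι ℂ) i j = σ ((g : Matrix ι ι ℂ) i j) := rfl

theorem cj_cj (σ τ : ℂ ≃+* ℂ) (g : GL ι ℂ) : cj σ (cj τ g) = cj (τ.trans σ) g := by
  apply Units.ext
  ext i j
  rfl

theorem cj_refl (g : GL ι ℂ) : cj (RingEquiv.refl ℂ) g = g := by
  apply Units.ext
  ext i j
  rfl

theorem pt_cj (σ : ℂ ≃+* ℂ) (g : GL ι ℂ) (d : D ι) : pt (cj σ g) d = σ (pt g d) := by
  rcases d with p | p
  · rfl
  · change ((cj σ g)⁻¹ : GL ι ℂ).1 p.1 p.2 = σ ((g⁻¹ : GL ι ℂ).1 p.1 p.2)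
    rw [← cj_inv]
    rfl

theorem pt_injective {g h : GL ι ℂ} (hgh : pt g = pt h) : g = h := by
  apply Units.ext
  ext i j
  exact congrFun hgh (Sum.inl (i, j))

variable (K : Subfield ℂ)

/-- the coordinates of the product -/
def mulP : D ι → MvPolynomial (D ι ⊕ D ι) K
  | Sum.inl p => ∑ k, X (Sum.inl (Sum.inl (p.1, k))) * X (Sum.inr (Sum.inl (k, p.2)))
  | Sum.inr p => ∑ k, X (Sum.inr (Sum.inr (p.1, k))) * X (Sum.inl (Sum.inr (k, p.2)))

theorem aeval_mulP (g h : GL ι ℂ) (f : MvPolynomial (D ι) K) :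
    aeval (Sum.elim (pt g) (pt h)) (bind₁ (mulP K) f) = aeval (pt (g * h)) f := by
  rw [aeval_bind₁]
  congr 2
  funext d
  rcases d with p | p
  · simp only [mulP, map_sum, map_mul, aeval_X, Sum.elim_inl, Sum.elim_inr, pt]
    rw [Units.val_mul, Matrix.mul_apply]
  · simp only [mulP, map_sum, map_mul, aeval_X, Sum.elim_inl, Sum.elim_inr, pt]
    rw [_root_.mul_inv_rev, Units.val_mul, Matrix.mul_apply]

theorem aeval_swap (g : GL ι ℂ) (f : MvPolynomial (D ι) K) :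
    aeval (pt g) (rename Sum.swap f) = aeval (pt g⁻¹) f := by
  rw [aeval_rename]
  congr 2
  funext d
  rcases d with p | p
  · rfl
  · simp only [pt, Function.comp_apply, Sum.swap_inr, Sum.elim_inl, Sum.elim_inr, inv_inv]

/-- `V` consists of matrices with entries in `K` -/
def KP (V : Set (GL ι ℂ)) : Prop := ∀ v ∈ V, ∀ d, pt v d ∈ K

/-- `g` satisfies all relations over `K` which hold on `V` -/
def InG (g : GL ι ℂ) (V : Set (GL ι ℂ)) : Prop :=
  ∀ f : MvPolynomial (D ι) K, (∀ v ∈ V, aeval (pt v) f = 0) → aeval (pt g) f = 0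

/-- `g` is a generic point of `V` over `K` -/
def GenG (g : GL ι ℂ) (V : Set (GL ι ℂ)) : Prop :=
  ∀ f : MvPolynomial (D ι) K, aeval (pt g) f = 0 ↔ ∀ v ∈ V, aeval (pt v) f = 0

variable {K}

theorem InG.aff {g : GL ι ℂ} {V : Set (GL ι ℂ)} (h : InG K g V) : In K (pt g) (pt '' V) :=
  fun f hf => h f fun v hv => hf _ ⟨v, hv, rfl⟩

theorem GenG.aff {g : GL ι ℂ} {V : Set (GL ι ℂ)} (h : GenG K g V) : Gen K (pt g) (pt '' V) := by
  intro f
  rw [h f]
  constructor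
  · rintro h1 _ ⟨v, hv, rfl⟩
    exact h1 v hv
  · exact fun h1 v hv => h1 _ ⟨v, hv, rfl⟩

theorem KP.aff {V : Set (GL ι ℂ)} (h : KP K V) : KPts K (pt '' V) := by
  rintro _ ⟨v, hv, rfl⟩ d
  exact h v hv d

theorem GenG.toInG {g : GL ι ℂ} {V : Set (GL ι ℂ)} (h : GenG K g V) : InG K g V :=
  fun f hf => (h f).2 hf

theorem InG.of_mem {g : GL ι ℂ} {V : Set (GL ι ℂ)} (h : g ∈ V) : InG K g V := fun _ hf => hf g h

theorem InG.mono {g : GL ι ℂ} {V W : Set (GL ι ℂ)} (h : InG K g V) (hVW : V ⊆ W) : InG K g W :=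
  fun f hf => h f fun v hv => hf v (hVW hv)

theorem InG.trans {g : GL ι ℂ} {V W : Set (GL ι ℂ)} (h : InG K g V) (hVW : ∀ v ∈ V, InG K v W) :
    InG K g W := fun f hf => h f fun v hv => hVW v hv f hf

theorem pt_mul_mem {g h : GL ι ℂ} (hg : ∀ d, pt g d ∈ K) (hh : ∀ d, pt h d ∈ K) (d : D ι) :
    pt (g * h) d ∈ K := by
  rcases d with p | p
  · simp only [pt, Sum.elim_inl]
    rw [Units.val_mul, Matrix.mul_apply]
    exact K.sum_mem fun k _ => K.mul_mem (hg (Sum.inl (p.1, k))) (hh (Sum.inl (k, p.2)))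
  · simp only [pt, Sum.elim_inr]
    rw [_root_.mul_inv_rev, Units.val_mul, Matrix.mul_apply]
    exact K.sum_mem fun k _ => K.mul_mem (hh (Sum.inr (p.1, k))) (hg (Sum.inr (k, p.2)))

theorem pt_inv_mem {g : GL ι ℂ} (hg : ∀ d, pt g d ∈ K) (d : D ι) : pt g⁻¹ d ∈ K := by
  rcases d with p | p
  · exact hg (Sum.inr p)
  · simp only [pt, Sum.elim_inr, inv_inv]
    exact hg (Sum.inl p)

theorem pt_one_mem (d : D ι) : pt (1 : GL ι ℂ) d ∈ K := by
  rcases d with p | p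
  · simp only [pt, Sum.elim_inl, Units.val_one, Matrix.one_apply]
    split_ifs
    · exact K.one_mem
    · exact K.zero_mem
  · simp only [pt, Sum.elim_inr, inv_one, Units.val_one, Matrix.one_apply]
    split_ifs
    · exact K.one_mem
    · exact K.zero_mem

theorem KP.mul {V W : Set (GL ι ℂ)} (hV : KP K V) (hW : KP K W) : KP K (V * W) := by
  rintro _ ⟨v, hv, w, hw, rfl⟩
  exact pt_mul_mem (hV v hv) (hW w hw)

theorem KP.inv {V : Set (GL ι ℂ)} (hV : KP K V) : KP K V⁻¹ := by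
  intro v hv d
  have h1 := pt_inv_mem (hV _ hv) d
  rwa [inv_inv] at h1

theorem KP.one : KP K (1 : Set (GL ι ℂ)) := by
  rintro v hv
  rw [Set.mem_one] at hv
  rw [hv]
  exact pt_one_mem

/-- **generic points of products** -/
theorem GenG.mul [Countable K] {g h : GL ι ℂ} {V W : Set (GL ι ℂ)} (hg : GenG K g V)
    (hh : GenG K h W) (hW : KP K W) :
    ∃ σ : ℂ ≃+* ℂ, (∀ a ∈ K, σ a = a) ∧ GenG K (g * cj σ h) (V * W) := by
  obtain ⟨σ, hσ, h1⟩ := Gen.prod hg.aff hh.aff hW.aff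
  refine ⟨σ, hσ, fun f => ?_⟩
  have h2 : (fun j => σ (pt h j)) = pt (cj σ h) := funext fun j => (pt_cj σ h j).symm
  rw [h2] at h1
  rw [← aeval_mulP, h1]
  constructor
  · rintro h3 _ ⟨v, hv, w, hw, rfl⟩
    rw [← aeval_mulP]
    exact h3 _ ⟨v, hv, rfl⟩ _ ⟨w, hw, rfl⟩
  · rintro h3 _ ⟨v, hv, rfl⟩ _ ⟨w, hw, rfl⟩
    rw [aeval_mulP]
    exact h3 _ ⟨v, hv, w, hw, rfl⟩

theorem InG.mul {g h : GL ι ℂ} {V W : Set (GL ι ℂ)} (hg : InG K g V)
    (hh : InG K h W) (hW : KP K W) : InG K (g * h) (V * W) := by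
  intro f hf
  rw [← aeval_mulP]
  refine In.prod hg.aff hh.aff hW.aff ?_
  rintro _ ⟨v, hv, rfl⟩ _ ⟨w, hw, rfl⟩
  rw [aeval_mulP]
  exact hf _ ⟨v, hv, w, hw, rfl⟩

theorem GenG.inv {g : GL ι ℂ} {V : Set (GL ι ℂ)} (hg : GenG K g V) : GenG K g⁻¹ V⁻¹ := by
  intro f
  rw [← aeval_swap, hg]
  constructor
  · intro h v hv
    have h1 := h _ hv
    rwa [aeval_swap, inv_inv] at h1
  · intro h v hv
    rw [aeval_swap]
    exact h _ (Set.inv_mem_inv.2 hv)

theorem InG.inv {g : GL ι ℂ} {V : Set (GL ι ℂ)} (hg : InG K g V) : InG K g⁻¹ V⁻¹ := by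
  intro f hf
  rw [← aeval_swap]
  refine hg _ fun v hv => ?_
  rw [aeval_swap]
  exact hf _ (Set.inv_mem_inv.2 hv)

/-! ### Conjugation -/

/-- the restriction of an automorphism to `K` -/
def rs (σ : ℂ ≃+* ℂ) (h : ∀ a ∈ K, σ a ∈ K) : K →+* K :=
  ((σ : ℂ →+* ℂ).comp K.subtype).codRestrict K fun a => h a a.2

theorem aeval_rs {κ : Type} (σ : ℂ ≃+* ℂ) (h : ∀ a ∈ K, σ a ∈ K) (x : κ → ℂ)
    (f : MvPolynomial κ K) : aeval (fun i => σ (x i)) (map (rs σ h) f) = σ (aeval x f) := by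
  have h1 : σ (aeval x f) = eval₂ ((σ : ℂ →+* ℂ).comp (algebraMap K ℂ)) (fun i => σ (x i)) f := by
    rw [aeval_def]
    exact (eval₂_comp_left (σ : ℂ →+* ℂ) (algebraMap K ℂ) x f)
  rw [h1, aeval_def, eval₂_map]
  rfl

theorem exists_map {κ : Type} (σ : ℂ ≃+* ℂ) (h : ∀ a, a ∈ K ↔ σ a ∈ K) (f : MvPolynomial κ K) :
    ∃ f' : MvPolynomial κ K, ∀ x : κ → ℂ, aeval (fun i => σ (x i)) f = σ (aeval x f') := by
  have h1 : ∀ a ∈ K, σ a ∈ K := fun a ha => (h a).1 ha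
  have h2 : ∀ a ∈ K, σ.symm a ∈ K := fun a ha => (h _).2 (by rwa [σ.apply_symm_apply])
  refine ⟨map (rs σ.symm h2) f, fun x => ?_⟩
  rw [← aeval_rs σ h1, MvPolynomial.map_map]
  have h3 : (rs σ h1).comp (rs σ.symm h2) = RingHom.id K := by
    ext a
    exact σ.apply_symm_apply _
  rw [h3, MvPolynomial.map_id]

theorem InG.cj {g : GL ι ℂ} {V : Set (GL ι ℂ)} (hg : InG K g V) (σ : ℂ ≃+* ℂ)
    (h : ∀ a, a ∈ K ↔ σ a ∈ K) : InG K (cj σ g) (cj σ '' V) := by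
  intro f hf
  obtain ⟨f', h1⟩ := exists_map σ h f
  have h2 : ∀ x : GL ι ℂ, aeval (pt (Pool.Agent.U907.GP.cj σ x)) f = σ (aeval (pt x) f') := by
    intro x
    rw [← h1]
    congr 2
    funext d
    exact pt_cj σ x d
  rw [h2, hg f', map_zero]
  intro v hv
  have h3 := hf _ ⟨v, hv, rfl⟩
  rw [h2] at h3
  exact (map_eq_zero_iff σ σ.injective).1 h3

theorem aeval_pt_cj {σ : ℂ ≃+* ℂ} (h : ∀ a ∈ K, σ a = a) (g : GL ι ℂ)
    (f : MvPolynomial (D ι) K) : aeval (pt (cj σ g)) f = σ (aeval (pt g) f) := by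
  have h1 : σ (aeval (pt g) f) =
      eval₂ ((σ : ℂ →+* ℂ).comp (algebraMap K ℂ)) (fun i => σ (pt g i)) f := by
    rw [aeval_def]
    exact (eval₂_comp_left (σ : ℂ →+* ℂ) (algebraMap K ℂ) (pt g) f)
  have h2 : (σ : ℂ →+* ℂ).comp (algebraMap K ℂ) = algebraMap K ℂ := by
    ext a
    exact h a a.2
  have h3 : (fun i => σ (pt g i)) = pt (cj σ g) := funext fun j => (pt_cj σ g j).symm
  rw [h1, h2, h3, aeval_def]

/-- conjugation over `K` preserves the relations over `K` -/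
theorem GenG.cj_fix {g : GL ι ℂ} {V : Set (GL ι ℂ)} (hg : GenG K g V) {σ : ℂ ≃+* ℂ}
    (h : ∀ a ∈ K, σ a = a) : GenG K (cj σ g) V := by
  intro f
  rw [aeval_pt_cj h, map_eq_zero_iff σ σ.injective]
  exact hg f

theorem InG.cj_fix {g : GL ι ℂ} {V : Set (GL ι ℂ)} (hg : InG K g V) {σ : ℂ ≃+* ℂ}
    (h : ∀ a ∈ K, σ a = a) : InG K (Pool.Agent.U907.GP.cj σ g) V := by
  intro f hf
  rw [aeval_pt_cj h, hg f hf, map_zero]

/-! ### The points over `K` -/

/-- the points over `K` of the Zariski closure of `g` -/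
def Z (K : Subfield ℂ) (g : GL ι ℂ) : Set (GL ι ℂ) :=
  {v | (∀ d, pt v d ∈ K) ∧ ∀ f : MvPolynomial (D ι) K, aeval (pt g) f = 0 → aeval (pt v) f = 0}

theorem kP_Z (g : GL ι ℂ) : KP K (Z K g) := fun _ hv => hv.1

theorem zk_pt (g : GL ι ℂ) : zk K (pt g) = pt '' Z K g := by
  apply Set.Subset.antisymm
  · intro v hv
    obtain ⟨hv1, hv2⟩ := hv
    let A : Matrix ι ι ℂ := Matrix.of fun i j => v (Sum.inl (i, j))
    let B : Matrix ι ι ℂ := Matrix.of fun i j => v (Sum.inr (i, j))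
    have hAB : A * B = 1 := by
      ext i j
      have h1 := hv2 ((∑ k, X (Sum.inl (i, k)) * X (Sum.inr (k, j))) -
        C (if i = j then 1 else 0)) (by
          simp only [map_sub, map_sum, map_mul, aeval_X, algHom_C, pt, Sum.elim_inl, Sum.elim_inr]
          have h2 : ((g * g⁻¹ : GL ι ℂ) : Matrix ι ι ℂ) i j = (1 : Matrix ι ι ℂ) i j := by
            rw [mul_inv_cancel]
            rfl
          rw [Units.val_mul, Matrix.mul_apply, Matrix.one_apply] at h2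
          rw [h2, apply_ite (algebraMap K ℂ), map_one, map_zero, sub_self])
      simp only [map_sub, map_sum, map_mul, aeval_X, algHom_C] at h1
      rw [apply_ite (algebraMap K ℂ), map_one, map_zero, sub_eq_zero] at h1
      rw [Matrix.mul_apply, Matrix.one_apply]
      exact h1
    have hBA : B * A = 1 := mul_eq_one_comm.1 hAB
    let u : GL ι ℂ := ⟨A, B, hAB, hBA⟩
    have hu : pt u = v := by
      funext d
      rcases d with p | p
      · rfl
      · rfl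
    refine ⟨u, ⟨fun d => ?_, fun f hf => ?_⟩, hu⟩
    · rw [hu]
      exact hv1 d
    · rw [hu]
      exact hv2 f hf
  · rintro _ ⟨v, hv, rfl⟩
    exact ⟨hv.1, hv.2⟩

/-- Hilbert's Nullstellensatz -/
theorem genG_Z [IsAlgClosed K] (g : GL ι ℂ) : GenG K g (Z K g) := by
  intro f
  rw [gen_zk (K := K) (pt g) f, zk_pt]
  constructor
  · intro h v hv
    exact h _ ⟨v, hv, rfl⟩
  · rintro h _ ⟨v, hv, rfl⟩
    exact h v hv

theorem GenG.nonempty {g : GL ι ℂ} {V : Set (GL ι ℂ)} (hg : GenG K g V) : V.Nonempty := by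
  by_contra hcon
  rw [Set.not_nonempty_iff_eq_empty] at hcon
  have h1 := (hg 1).2 (by rw [hcon]; simp)
  rw [map_one] at h1
  exact one_ne_zero h1

theorem Z_cj (σ : ℂ ≃+* ℂ) (h : ∀ a, a ∈ K ↔ σ a ∈ K) (g : GL ι ℂ) :
    Z K (cj σ g) = cj σ '' Z K g := by
  have h' : ∀ a, a ∈ K ↔ σ.symm a ∈ K := fun a => by
    rw [h (σ.symm a), σ.apply_symm_apply]
  have key : ∀ (τ : ℂ ≃+* ℂ) (_ : ∀ a, a ∈ K ↔ τ a ∈ K) (g v : GL ι ℂ), v ∈ Z K g →
      cj τ v ∈ Z K (cj τ g) := by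
    intro τ hτ g v hv
    refine ⟨fun d => ?_, fun f hf => ?_⟩
    · rw [pt_cj]
      exact (hτ _).1 (hv.1 d)
    · obtain ⟨f', h1⟩ := exists_map τ hτ f
      have h2 : ∀ x : GL ι ℂ, aeval (pt (cj τ x)) f = τ (aeval (pt x) f') := by
        intro x
        rw [← h1]
        congr 2
        funext d
        exact pt_cj τ x d
      rw [h2] at hf ⊢
      rw [hv.2 f' ((map_eq_zero_iff τ τ.injective).1 hf), map_zero]
  apply Set.Subset.antisymm
  · intro v hv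
    refine ⟨cj σ.symm v, ?_, ?_⟩
    · have h1 := key σ.symm h' _ _ hv
      rwa [cj_cj, RingEquiv.self_trans_symm, cj_refl] at h1
    · rw [cj_cj, RingEquiv.symm_trans_self, cj_refl]
  · rintro _ ⟨v, hv, rfl⟩
    exact key σ h g v hv

/-! ### Transcendence degree -/

/-- the transcendence degree of the field generated by the entries -/
def tdg (K : Subfield ℂ) (g : GL ι ℂ) : ℕ := td K (pt g)

theorem InG.tdg_le {g h : GL ι ℂ} {V : Set (GL ι ℂ)} (hg : InG K g V) (hh : GenG K h V) :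
    tdg K g ≤ tdg K h := td_le fun f hf => hg f ((hh f).1 hf)

theorem InG.gen {g h : GL ι ℂ} {V : Set (GL ι ℂ)} (hg : InG K g V) (hh : GenG K h V)
    (hle : tdg K h ≤ tdg K g) : GenG K g V := by
  intro f
  refine ⟨fun h1 => ?_, fun h1 => hg f h1⟩
  exact (hh f).1 (rel_of_td_le (fun f hf => hg f ((hh f).1 hf)) hle h1)

theorem tdg_mul_right_le {g h : GL ι ℂ} (hh : ∀ d, pt h d ∈ K) : tdg K (g * h) ≤ tdg K g := by
  refine td_le_of_mem fun d => ?_
  have h0 : ∀ d, pt g d ∈ Algebra.adjoin K (Set.range (pt g)) := fun d =>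
    Algebra.subset_adjoin ⟨d, rfl⟩
  have h1 : ∀ a ∈ K, a ∈ Algebra.adjoin K (Set.range (pt g)) := fun a ha =>
    (Algebra.adjoin K (Set.range (pt g))).algebraMap_mem ⟨a, ha⟩
  rcases d with p | p
  · simp only [pt, Sum.elim_inl]
    rw [Units.val_mul, Matrix.mul_apply]
    exact Subalgebra.sum_mem _ fun k _ => Subalgebra.mul_mem _ (h0 (Sum.inl (p.1, k)))
      (h1 _ (hh (Sum.inl (k, p.2))))
  · simp only [pt, Sum.elim_inr]
    rw [_root_.mul_inv_rev, Units.val_mul, Matrix.mul_apply]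
    exact Subalgebra.sum_mem _ fun k _ => Subalgebra.mul_mem _ (h1 _ (hh (Sum.inr (p.1, k))))
      (h0 (Sum.inr (k, p.2)))

theorem tdg_mul_right {g h : GL ι ℂ} (hh : ∀ d, pt h d ∈ K) : tdg K (g * h) = tdg K g := by
  refine le_antisymm (tdg_mul_right_le hh) ?_
  have h1 := tdg_mul_right_le (g := g * h) (pt_inv_mem hh)
  rwa [mul_inv_cancel_right] at h1

end

end Pool.Agent.U907.GP
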