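import Pool.Agent.U907.GP.Desc

/-!
# Period groups
-/

set_option autoImplicit false
set_option linter.unusedSectionVars false

namespace Pool.Agent.U907.GP

open MvPolynomial Matrix
open scoped Pointwise

noncomputable section

variable {ι : Type} [Fintype ι] [DecidableEq ι]

/-- the entries of a matrix -/
def ent (g : GL ι ℂ) : ι × ι → ℂ := fun p => (g : Matrix ι ι ℂ) p.1 p.2

/-- a subgroup of `GL(ℂ)` defined by polynomials with coefficients in `k` -/
def IsAlg (k : Subfield ℂ) (G : Subgroup (GL ι ℂ)) : Prop :=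
  ∃ I : Set (MvPolynomial (ι × ι) k), ∀ x : GL ι ℂ, x ∈ G ↔ ∀ p ∈ I, aeval (ent x) p = 0

/-- an algebraic group over `k` with a torsor over `K` which contains `P` -/
def IsPer (k K : Subfield ℂ) (P : GL ι ℂ) (G : Subgroup (GL ι ℂ)) : Prop :=
  IsAlg k G ∧ ∃ T : GL ι ℂ, (∀ i j, (T : Matrix ι ι ℂ) i j ∈ K) ∧ P * T ∈ G

variable {k K : Subfield ℂ}

theorem det_mem {T : Matrix ι ι ℂ} (hT : ∀ i j, T i j ∈ K) : T.det ∈ K := by
  rw [Matrix.det_apply]
  refine K.sum_mem fun s _ => ?_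
  rcases Int.units_eq_one_or (Equiv.Perm.sign s) with h | h
  · rw [h, one_smul]
    exact K.prod_mem fun i _ => hT _ _
  · rw [h, Units.neg_smul, one_smul]
    exact K.neg_mem (K.prod_mem fun i _ => hT _ _)

theorem pt_mem_of_ent {T : GL ι ℂ} (hT : ∀ i j, (T : Matrix ι ι ℂ) i j ∈ K) (d : D ι) :
    pt T d ∈ K := by
  rcases d with p | p
  · exact hT _ _
  · change ((T⁻¹ : GL ι ℂ) : Matrix ι ι ℂ) p.1 p.2 ∈ K
    rw [Matrix.coe_units_inv, Matrix.inv_def, Matrix.smul_apply, smul_eq_mul,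
      Ring.inverse_eq_inv, Matrix.adjugate_apply]
    refine K.mul_mem (K.inv_mem (det_mem hT)) (det_mem fun i j => ?_)
    rw [Matrix.updateRow_apply]
    split_ifs
    · rw [Pi.single_apply]
      split_ifs
      · exact K.one_mem
      · exact K.zero_mem
    · exact hT _ _

/-- clearing the denominators -/
theorem exists_clear (p : MvPolynomial (D ι) k) : ∃ (N : ℕ) (p' : MvPolynomial (ι × ι) k),
    ∀ x : GL ι ℂ, aeval (ent x) p' = (x : Matrix ι ι ℂ).det ^ N * aeval (pt x) p := by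
  let M : Matrix ι ι (MvPolynomial (ι × ι) k) := Matrix.mvPolynomialX ι ι k
  have hM : ∀ x : GL ι ℂ, (aeval (ent x) : MvPolynomial (ι × ι) k →ₐ[k] ℂ).mapMatrix M =
      (x : Matrix ι ι ℂ) := by
    intro x
    ext i j
    rw [AlgHom.mapMatrix_apply, Matrix.map_apply]
    change aeval (ent x) (X (i, j)) = _
    rw [aeval_X]
    rfl
  have hdet : ∀ x : GL ι ℂ, aeval (ent x) M.det = (x : Matrix ι ι ℂ).det := by
    intro x
    rw [AlgHom.map_det, hM]
  have hadj : ∀ (x : GL ι ℂ) (i j : ι), aeval (ent x) (M.adjugate i j) =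
      (x : Matrix ι ι ℂ).det * ((x⁻¹ : GL ι ℂ) : Matrix ι ι ℂ) i j := by
    intro x i j
    have h1 : (aeval (ent x) : MvPolynomial (ι × ι) k →ₐ[k] ℂ).mapMatrix M.adjugate =
        (x : Matrix ι ι ℂ).adjugate := by
      rw [AlgHom.map_adjugate, hM]
    have h2 := congrFun (congrFun h1 i) j
    rw [AlgHom.mapMatrix_apply, Matrix.map_apply] at h2
    rw [h2, Matrix.coe_units_inv, Matrix.inv_def, Matrix.smul_apply, smul_eq_mul,
      Ring.inverse_eq_inv, mul_inv_cancel_left₀]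
    exact (Matrix.GeneralLinearGroup.det x).ne_zero
  induction p using MvPolynomial.induction_on with
  | C a =>
    refine ⟨0, C a, fun x => ?_⟩
    rw [algHom_C, algHom_C, pow_zero, one_mul]
  | add p q hp hq =>
    obtain ⟨N, p', hp'⟩ := hp
    obtain ⟨N', q', hq'⟩ := hq
    refine ⟨N + N', M.det ^ N' * p' + M.det ^ N * q', fun x => ?_⟩
    rw [map_add, map_mul, map_mul, map_pow, map_pow, hdet, hp', hq', map_add]
    ring
  | mul_X p d hp =>
    obtain ⟨N, p', hp'⟩ := hp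
    rcases d with q | q
    · refine ⟨N, p' * X q, fun x => ?_⟩
      rw [map_mul, aeval_X, hp', map_mul, aeval_X, mul_assoc]
      rfl
    · refine ⟨N + 1, p' * M.adjugate q.1 q.2, fun x => ?_⟩
      rw [map_mul, hadj, hp', map_mul, aeval_X, pow_succ]
      change _ = _ * (_ * ((x⁻¹ : GL ι ℂ) : Matrix ι ι ℂ) q.1 q.2)
      ring

/-- a polynomial in the entries over `k` as a polynomial over `K` -/
theorem exists_lift (hkK : k ≤ K) (p : MvPolynomial (ι × ι) k) :
    ∃ f : MvPolynomial (D ι) K, ∀ x : GL ι ℂ, aeval (pt x) f = aeval (ent x) p := by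
  refine ⟨rename Sum.inl (map (Subfield.inclusion hkK) p), fun x => ?_⟩
  rw [aeval_rename, aeval_incl]
  rfl

/-- `K` is normal over `k`, and `k` is the fixed field of the automorphisms over `k` -/
structure Data (k K : Subfield ℂ) : Prop where
  le : k ≤ K
  st : ∀ σ, Fx k σ → ∀ a, a ∈ K ↔ σ a ∈ K
  fix : ∀ a : ℂ, (∀ σ : ℂ ≃+* ℂ, Fx k σ → σ a = a) → a ∈ k

theorem Fx.trans {σ τ : ℂ ≃+* ℂ} (hσ : Fx k σ) (hτ : Fx k τ) : Fx k (σ.trans τ) := fun a ha => by
  rw [RingEquiv.trans_apply, hσ a ha, hτ a ha]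

theorem cj_Y (hd : Data k K) {P : GL ι ℂ} {σ τ : ℂ ≃+* ℂ} (hσ : Fx k σ) {γ : GL ι ℂ}
    (h : γ ∈ Y K P τ) : cj σ γ ∈ Y K P (τ.trans σ) := by
  obtain ⟨v, hv, w, hw, rfl⟩ := h
  have key : ∀ u ∈ Z K (cj τ P), cj σ u ∈ Z K (cj (τ.trans σ) P) := by
    intro u hu
    rw [← cj_cj, Z_cj σ (hd.st σ hσ)]
    exact ⟨u, hu, rfl⟩
  refine ⟨cj σ v, key v hv, cj σ w, ?_, (cj_mul _ _ _).symm⟩
  rw [Set.mem_inv, ← cj_inv]
  exact key _ hw

theorem cj_Gam (hd : Data k K) {P : GL ι ℂ} {σ : ℂ ≃+* ℂ} (hσ : Fx k σ) {γ : GL ι ℂ}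
    (h : γ ∈ Gam k K P) : cj σ γ ∈ Gam k K P := by
  induction h using Subgroup.closure_induction with
  | mem x hx =>
    obtain ⟨τ, hτ, h⟩ := hx
    exact Subgroup.subset_closure ⟨_, hτ.trans hσ, cj_Y hd hσ h⟩
  | one =>
    have h1 : cj σ (1 : GL ι ℂ) = 1 := map_one _
    rw [h1]
    exact (Gam k K P).one_mem
  | mul x y _ _ hx hy => rw [cj_mul]; exact (Gam k K P).mul_mem hx hy
  | inv x _ hx => rw [cj_inv]; exact (Gam k K P).inv_mem hx

/-- the closure of `Gam` is defined over `k` -/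
theorem isAlg_GG (hd : Data k K) (P : GL ι ℂ) : IsAlg k (GG k K P) := by
  refine ⟨{p | ∀ γ ∈ Gam k K P, aeval (ent γ) p = 0}, fun x => ?_⟩
  rw [mem_GG]
  constructor
  · intro h p hp
    obtain ⟨f, hf⟩ := exists_lift hd.le p
    rw [← hf]
    exact h f fun γ hγ => by rw [hf]; exact hp γ hγ
  · intro h f hf
    have h1 : ∀ p : MvPolynomial (D ι) k, (∀ γ ∈ Gam k K P, aeval (pt γ) p = 0) →
        aeval (pt x) p = 0 := by
      intro p hp
      obtain ⟨N, p', hp'⟩ := exists_clear p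
      have h2 := h p' fun γ hγ => by rw [hp', hp γ hγ, mul_zero]
      rw [hp'] at h2
      exact (mul_eq_zero.1 h2).resolve_left
        (pow_ne_zero _ (Matrix.GeneralLinearGroup.det x).ne_zero)
    have h2 := descent (V := pt '' (Gam k K P : Set (GL ι ℂ))) hd.fix (by
      rintro σ hσ _ ⟨γ, hγ, rfl⟩
      refine ⟨cj σ γ, cj_Gam hd hσ hγ, ?_⟩
      funext d
      exact pt_cj σ γ d) (map K.subtype f) (by
      rintro _ ⟨γ, hγ, rfl⟩
      rw [aeval_coe]
      exact hf γ hγ)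
    rw [← aeval_coe]
    generalize map K.subtype f = F at h2
    induction h2 using Submodule.span_induction with
    | mem G hG =>
      obtain ⟨p, hp, rfl⟩ := hG
      rw [aeval_coe]
      exact h1 p fun γ hγ => hp _ ⟨γ, hγ, rfl⟩
    | zero => exact map_zero _
    | add a b _ _ ha hb => rw [map_add, ha, hb, add_zero]
    | smul c a _ ha => rw [smul_eval, ha, mul_zero]

theorem isPer_GG [IsAlgClosed K] [Countable K] (hd : Data k K) (P : GL ι ℂ) : IsPer k K P (GG k K P) := by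
  refine ⟨isAlg_GG hd P, ?_⟩
  obtain ⟨z, hz⟩ := (genG_Z (K := K) P).nonempty
  refine ⟨z⁻¹, fun i j => ?_, mul_inv_mem_GG hz⟩
  exact pt_inv_mem (kP_Z P z hz) (Sum.inl (i, j))

/-- the group is the smallest period group -/
theorem GG_le (hd : Data k K) {P : GL ι ℂ} {G : Subgroup (GL ι ℂ)} (hG : IsPer k K P G) :
    GG k K P ≤ G := by
  obtain ⟨⟨I, hI⟩, T, hT, hPT⟩ := hG
  have h1 : ∀ τ, Fx k τ → ∀ v ∈ Z K (cj τ P), v * cj τ T ∈ G := by
    intro τ hτ v hv
    rw [hI]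
    intro p hp
    obtain ⟨f, hf⟩ := exists_lift hd.le p
    obtain ⟨f', hf'⟩ := exists_right (K := K) (δ := cj τ T) (fun d => by
      rw [pt_cj]
      exact (hd.st τ hτ _).1 (pt_mem_of_ent hT d)) f
    have h2 : aeval (pt (cj τ P)) f' = 0 := by
      rw [hf', hf, ← cj_mul]
      have h3 : aeval (ent (cj τ (P * T))) p = τ (aeval (ent (P * T)) p) := by
        have h4 : τ (aeval (ent (P * T)) p) =
            eval₂ ((τ : ℂ →+* ℂ).comp (algebraMap k ℂ)) (fun i => τ (ent (P * T) i)) p := by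
          rw [aeval_def]
          exact (eval₂_comp_left (τ : ℂ →+* ℂ) (algebraMap k ℂ) _ p)
        have h5 : (τ : ℂ →+* ℂ).comp (algebraMap k ℂ) = algebraMap k ℂ := by
          ext a
          exact hτ a a.2
        rw [h4, h5, aeval_def]
        rfl
      rw [h3, (hI _).1 hPT p hp, map_zero]
    have h3 := hv.2 f' h2
    rw [hf', hf] at h3
    exact h3
  have h2 : Gam k K P ≤ G := by
    rw [Gam, Subgroup.closure_le]
    rintro γ ⟨τ, hτ, v, hv, w, hw, rfl⟩
    have h3 := G.mul_mem (h1 τ hτ v hv) (G.inv_mem (h1 τ hτ _ hw))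
    have h4 : v * cj τ T * (w⁻¹ * cj τ T)⁻¹ = v * w := by group
    rw [h4] at h3
    exact h3
  intro x hx
  rw [hI]
  intro p hp
  obtain ⟨f, hf⟩ := exists_lift hd.le p
  rw [← hf]
  exact hx f fun γ hγ => by
    rw [hf]
    exact (hI γ).1 (h2 hγ) p hp

end

end Pool.Agent.U907.GP
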