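import Pool.Agent.U907.GP.Gen

/-!
# Generic points of products
-/

set_option autoImplicit false

namespace Pool.Agent.U907.GP

open MvPolynomial

noncomputable section

variable {κ κ' : Type} {K L : Subfield ℂ}

theorem exists_evL (hKL : K ≤ L) {x : κ → ℂ} (hx : ∀ i, x i ∈ L) (F : MvPolynomial (κ ⊕ κ') K) :
    ∃ F' : MvPolynomial κ' L, ∀ y : κ' → ℂ, aeval y F' = aeval (Sum.elim x y) F := by
  refine ⟨bind₁ (Sum.elim (fun i => C ⟨x i, hx i⟩) X) (map (Subfield.inclusion hKL) F),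
    fun y => ?_⟩
  rw [aeval_bind₁, ← aeval_incl hKL (Sum.elim x y) F]
  congr 2
  funext d
  rcases d with i | j
  · simp only [Sum.elim_inl]
    rw [algHom_C]
    rfl
  · simp only [Sum.elim_inr, aeval_X]

theorem exists_evR (hKL : K ≤ L) {y : κ' → ℂ} (hy : ∀ i, y i ∈ L) (F : MvPolynomial (κ ⊕ κ') K) :
    ∃ F' : MvPolynomial κ L, ∀ x : κ → ℂ, aeval x F' = aeval (Sum.elim x y) F := by
  refine ⟨bind₁ (Sum.elim X (fun i => C ⟨y i, hy i⟩)) (map (Subfield.inclusion hKL) F),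
    fun x => ?_⟩
  rw [aeval_bind₁, ← aeval_incl hKL (Sum.elim x y) F]
  congr 2
  funext d
  rcases d with i | j
  · simp only [Sum.elim_inl, aeval_X]
  · simp only [Sum.elim_inr]
    rw [algHom_C]
    rfl

/-- the countable field generated by `K` and finitely many numbers -/
theorem exists_field [Countable κ] (K : Subfield ℂ) [Countable K] (x : κ → ℂ) :
    ∃ L : Subfield ℂ, Countable L ∧ K ≤ L ∧ ∀ i, x i ∈ L := by
  refine ⟨Subfield.closure ((K : Set ℂ) ∪ Set.range x), ?_, ?_, ?_⟩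
  · rw [← Cardinal.mk_le_aleph0_iff]
    refine (Subfield.cardinalMk_closure_le_max _).trans (max_le ?_ le_rfl)
    rw [Cardinal.mk_le_aleph0_iff]
    have h1 : (K : Set ℂ).Countable := Set.to_countable _
    exact (h1.union (Set.countable_range x)).to_subtype
  · exact fun a ha => Subfield.subset_closure (Or.inl ha)
  · exact fun i => Subfield.subset_closure (Or.inr ⟨i, rfl⟩)

/-- independent conjugates -/
theorem Gen.prod [Finite κ] [Finite κ'] [Countable K] {x : κ → ℂ} {y : κ' → ℂ}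
    {V : Set (κ → ℂ)} {W : Set (κ' → ℂ)} (hV : Gen K x V) (hW : Gen K y W)
    (hWK : KPts K W) : ∃ σ : ℂ ≃+* ℂ, (∀ a ∈ K, σ a = a) ∧
      ∀ F : MvPolynomial (κ ⊕ κ') K, aeval (Sum.elim x (fun j => σ (y j))) F = 0 ↔
        ∀ v ∈ V, ∀ w ∈ W, aeval (Sum.elim v w) F = 0 := by
  obtain ⟨L, hL, hKL, hx⟩ := exists_field K x
  obtain ⟨σ, hσ, hgen⟩ := hW.exists_conj hKL hWK
  refine ⟨σ, hσ, fun F => ?_⟩
  obtain ⟨F', hF'⟩ := exists_evL hKL hx F
  rw [← hF', hgen]
  have h1 : ∀ w ∈ W, aeval w F' = 0 ↔ ∀ v ∈ V, aeval (Sum.elim v w) F = 0 := by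
    intro w hw
    obtain ⟨G, hG⟩ := exists_evR le_rfl (hWK w hw) F
    rw [hF', ← hG, hV]
    simp only [hG]
  constructor
  · intro h v hv w hw
    exact (h1 w hw).1 (h w hw) v hv
  · intro h w hw
    exact (h1 w hw).2 fun v hv => h v hv w hw

theorem In.prod {x : κ → ℂ} {y : κ' → ℂ} {V : Set (κ → ℂ)} {W : Set (κ' → ℂ)} (hV : In K x V)
    (hW : In K y W) (hWK : KPts K W) {F : MvPolynomial (κ ⊕ κ') K}
    (hF : ∀ v ∈ V, ∀ w ∈ W, aeval (Sum.elim v w) F = 0) : aeval (Sum.elim x y) F = 0 := by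
  have h1 : ∀ w ∈ W, aeval (Sum.elim x w) F = 0 := by
    intro w hw
    obtain ⟨G, hG⟩ := exists_evR le_rfl (hWK w hw) F
    rw [← hG]
    exact hV G fun v hv => by rw [hG]; exact hF v hv w hw
  obtain ⟨F', hF'⟩ := exists_evL (L := ⊤) le_top (x := x) (fun _ => trivial) F
  have h2 : ∀ z : κ' → ℂ, eval z (map (⊤ : Subfield ℂ).subtype F') = aeval (Sum.elim x z) F := by
    intro z
    rw [aeval_coe, hF']
  rw [← h2]
  exact hW.complex hWK fun w hw => by rw [h2]; exact h1 w hw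

end

end Pool.Agent.U907.GP
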